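import Pool.Agent.W786.Max2

/-!
# Osgood's lemma for the maximum of the vorticity
-/

open MeasureTheory Set Filter
open scoped ENNReal NNReal Topology

namespace Pool.Agent.V11287.Eul

open Pool.Agent.H708R2.EulerSign Pool.Agent.H708R2.EulerTypeI Pool.Agent.W786.Sv
  Pool.Agent.W786.Dir Pool.Agent.W786.Max

variable {T : ℝ} {u : ℝ → V → V} {p : ℝ → V → ℝ}

/-- Growth of the maximum of the vorticity, with an Osgood bound of the stretching rate at one
maximum point. -/
theorem osgood (h : IsC2Solution T u p) {φ R : ℝ → ℝ} {K : ℝ}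
    (hφc : ContinuousOn φ (Ici 0)) (hφ1 : ∀ s, 0 ≤ s → 1 ≤ φ s)
    (hR0 : ∀ t ∈ Ioo 0 T, 0 ≤ R t) (hRi : IntegrableOn R (Ioo 0 T))
    (hyp : ∀ᵐ t, t ∈ Ioo 0 T → ∃ x, IsMaxPt u t x ∧ (K < nrm (vort (u t) x) →
      Pq u t x ≤ R t * φ (Real.log (nrm (vort (u t) x))) * Wq u t x))
    (hK1 : 1 ≤ K) (hK0 : ∀ x, nrm (vort (u 0) x) ≤ K) :
    ∀ c ∈ Ioo 0 T, ∀ x, K ≤ nrm (vort (u c) x) →
      ∫ s in (Real.log K)..(Real.log (nrm (vort (u c) x))), 1 / φ s ≤ ∫ s in Ioo 0 c, R s := by
  intro c hc x₂ hx₂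
  set g : ℝ → ℝ := fun s => 1 / φ (max s 0) with hg
  have hφ1' : ∀ s, 1 ≤ φ (max s 0) := fun s => hφ1 _ (le_max_right _ _)
  have hgc : Continuous g := by
    have h1 : Continuous fun s => φ (max s 0) :=
      hφc.comp_continuous (by fun_prop) fun s => mem_Ici.2 (le_max_right _ _)
    exact continuous_const.div h1 fun s => by have := hφ1' s; positivity
  have hg0 : ∀ s, 0 < g s := fun s => by have := hφ1' s; simp only [hg]; positivity
  have hg1 : ∀ s, g s ≤ 1 := fun s => by
    have := hφ1' s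
    simp only [hg]
    rw [div_le_one (by linarith)]
    exact this
  set Θ : ℝ → ℝ := fun y => ∫ s in (0 : ℝ)..y, g s with hΘ
  have hΘd : ∀ y, HasDerivAt Θ (g y) y := fun y =>
    intervalIntegral.integral_hasDerivAt_right (hgc.intervalIntegrable _ _)
      hgc.aestronglyMeasurable.stronglyMeasurableAtFilter hgc.continuousAt
  have hΘdiff : ∀ a b, Θ b - Θ a = ∫ s in a..b, g s := fun a b =>
    intervalIntegral.integral_interval_sub_left (hgc.intervalIntegrable _ _)
      (hgc.intervalIntegrable _ _)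
  have hΘm : Monotone Θ := by
    intro a b hab
    have h1 := hΘdiff a b
    have h2 : 0 ≤ ∫ s in a..b, g s :=
      intervalIntegral.integral_nonneg hab fun s _ => (hg0 s).le
    linarith
  have hΘL : ∀ a b, a ≤ b → Θ b - Θ a ≤ b - a := by
    intro a b hab
    rw [hΘdiff]
    have h2 : ∫ s in a..b, g s ≤ ∫ _s in a..b, (1 : ℝ) :=
      intervalIntegral.integral_mono_on hab (hgc.intervalIntegrable _ _)
        intervalIntegrable_const fun s _ => hg1 s
    rw [intervalIntegral.integral_const, smul_eq_mul, mul_one] at h2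
    exact h2
  set Φ : ℝ → ℝ := fun w => Θ (Real.log (max w 1) / 2) with hΦ
  have hlm : ∀ w z : ℝ, w ≤ z → Real.log (max w 1) / 2 ≤ Real.log (max z 1) / 2 := by
    intro w z hwz
    have h1 : (0 : ℝ) < max w 1 := lt_max_of_lt_right one_pos
    have := Real.log_le_log h1 (max_le_max_right 1 hwz)
    linarith
  have hΦm : MonotoneOn Φ (Ici 0) := fun w _ z _ hwz => hΘm (hlm w z hwz)
  have hΦd : ∀ w : ℝ, 1 < w → HasDerivAt Φ (g (Real.log w / 2) * (1 / w / 2)) w := by
    intro w hw
    have h1 : HasDerivAt (fun w : ℝ => Real.log w / 2) (1 / w / 2) w :=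
      ((hasDerivAt_id w).log (by simp only [id]; linarith)).div_const 2
    have h2 := (hΘd (Real.log w / 2)).comp w h1
    refine h2.congr_of_eventuallyEq ?_
    filter_upwards [Ioi_mem_nhds hw] with y hy
    have hy' : (1 : ℝ) < y := hy
    simp only [hΦ, Function.comp]
    rw [max_eq_left hy'.le]
  -- the last time at which the vorticity is at most `K`
  have hnc : ∀ y, ContinuousOn (fun t => nrm (vort (u t) y)) (Icc 0 c) := by
    intro y
    have h1 := nrm_vort_cont h.sol hc.2
    have h2 : Continuous fun t : ℝ => ((t, y) : ℝ × V) := by fun_prop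
    have h3 := h1.comp (s := Icc 0 c) h2.continuousOn fun t ht => ⟨ht, mem_univ _⟩
    simpa only [Function.comp_def] using h3
  set S : Set ℝ := {t ∈ Icc 0 c | ∀ y, nrm (vort (u t) y) ≤ K} with hS
  have hSc : IsCompact S := by
    have : IsClosed S := by
      have h1 : S = Icc 0 c ∩ ⋂ y, (Icc 0 c ∩ (fun t => nrm (vort (u t) y)) ⁻¹' Iic K) := by
        ext t
        simp only [hS, mem_inter_iff, mem_iInter, mem_preimage, mem_Iic]
        constructor
        · rintro ⟨h1, h2⟩
          exact ⟨h1, fun y => ⟨h1, h2 y⟩⟩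
        · rintro ⟨h1, h2⟩
          exact ⟨h1, fun y => (h2 y).2⟩
      rw [h1]
      exact isClosed_Icc.inter (isClosed_iInter fun y =>
        (hnc y).preimage_isClosed_of_isClosed isClosed_Icc isClosed_Iic)
    exact isCompact_Icc.of_isClosed_subset this fun t ht => ht.1
  have hSne : S.Nonempty := ⟨0, ⟨le_rfl, hc.1.le⟩, hK0⟩
  obtain ⟨hsI, hsK⟩ := hSc.sSup_mem hSne
  set s := sSup S with hs
  have hlt : ∀ t ∈ Ioc s c, ∀ z, IsMaxPt u t z → K < nrm (vort (u t) z) := by
    intro t ht z hz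
    by_contra h1
    push Not at h1
    have : t ∈ S := ⟨⟨hsI.1.trans ht.1.le, ht.2⟩, fun y => (hz y).trans h1⟩
    exact absurd (le_csSup hSc.bddAbove this) (not_le.2 ht.1)
  obtain ⟨C, hC0, hCg⟩ := Mx_growth h hc.2
  have hLip : ∀ r ∈ Icc s c, ∀ t ∈ Icc s c, r ≤ t →
      Φ (Mx u t) - Φ (Mx u r) ≤ C * (t - r) := by
    intro r hr t ht hrt
    have h2 := hCg r ⟨hsI.1.trans hr.1, hr.2⟩ t ⟨hsI.1.trans ht.1, ht.2⟩ hrt
    have hMr := Mx_nonneg (u := u) r
    have hMt := Mx_nonneg (u := u) t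
    have hE0 : 0 ≤ 2 * C * (t - r) := by
      have : 0 ≤ t - r := by linarith
      positivity
    have h3 : 1 ≤ Real.exp (2 * C * (t - r)) := Real.one_le_exp hE0
    have hp : (0 : ℝ) < max (Mx u r) 1 := lt_max_of_lt_right one_pos
    have h4 : max (Mx u t) 1 ≤ max (Mx u r) 1 * Real.exp (2 * C * (t - r)) := by
      refine max_le (h2.trans ?_) ?_
      · exact mul_le_mul_of_nonneg_right (le_max_left _ _) (Real.exp_pos _).le
      · nlinarith [le_max_right (Mx u r) 1]
    have h5 := Real.log_le_log (lt_max_of_lt_right one_pos) h4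
    rw [Real.log_mul hp.ne' (Real.exp_pos _).ne', Real.log_exp] at h5
    have h6 : Real.log (max (Mx u t) 1) / 2 ≤ Real.log (max (Mx u r) 1) / 2 + C * (t - r) := by
      linarith
    have h7 : 0 ≤ C * (t - r) := by linarith
    have h8 := hΘm h6
    have h9 := hΘL (Real.log (max (Mx u r) 1) / 2)
      (Real.log (max (Mx u r) 1) / 2 + C * (t - r)) (by linarith)
    show Θ (Real.log (max (Mx u t) 1) / 2) - Θ (Real.log (max (Mx u r) 1) / 2) ≤ _
    linarith
  have hRb : IntegrableOn R (Icc 0 c) := by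
    rw [integrableOn_Icc_iff_integrableOn_Ioo]
    exact hRi.mono_set (Ioo_subset_Ioo_right hc.2.le)
  have hRi' : IntegrableOn R (Icc s c) := hRb.mono_set (Icc_subset_Icc_left hsI.1)
  have key : Φ (Mx u c) - Φ (Mx u s) ≤ ∫ t in s..c, R t := by
    refine growth_of_ae (L := fun t => Φ (Mx u t)) (C := C) hsI.2 hLip
      ((intervalIntegrable_iff_integrableOn_Icc_of_le hsI.2).2 hRi') ?_
    filter_upwards [hyp] with t ht htI d hd
    have htT : t ∈ Ioo 0 T := ⟨hsI.1.trans_lt htI.1, htI.2.trans hc.2⟩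
    obtain ⟨x, hx, hx2⟩ := ht htT
    have hKx := hlt t ⟨htI.1, htI.2.le⟩ x hx
    have hP := hx2 hKx
    set m := nrm (vort (u t) x) with hm
    have hm1 : 1 < m := hK1.trans_lt hKx
    have hm0 : 0 < m := by linarith
    have hWm : Wq u t x = m ^ 2 := Wq_eq t x
    have hlogm : 0 < Real.log m := Real.log_pos hm1
    have hw1 : 1 < Wq u t x := by rw [hWm]; nlinarith
    have h2 := deriv_le h htT hx hΦm (hΦd _ hw1) hd
    refine h2.trans ?_
    have e1 : Real.log (Wq u t x) / 2 = Real.log m := by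
      rw [hWm, Real.log_pow]
      push_cast
      ring
    have e2 : g (Real.log m) = 1 / φ (Real.log m) := by
      simp only [hg]
      rw [max_eq_left hlogm.le]
    have hφm : 0 < φ (Real.log m) := by have := hφ1 _ hlogm.le; linarith
    rw [e1, e2]
    have h3 : vort (u t) x ⬝ᵥ (grad (u t) x).mulVec (vort (u t) x)
        ≤ R t * φ (Real.log m) * Wq u t x := hP
    have hWpos : 0 < Wq u t x := by linarith
    calc 1 / φ (Real.log m) * (1 / Wq u t x / 2)
          * (2 * (vort (u t) x ⬝ᵥ (grad (u t) x).mulVec (vort (u t) x)))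
        ≤ 1 / φ (Real.log m) * (1 / Wq u t x / 2)
          * (2 * (R t * φ (Real.log m) * Wq u t x)) := by gcongr
      _ = R t := by field_simp
  -- conclusion
  have hint0 : ∫ t in s..c, R t ≤ ∫ t in (0 : ℝ)..c, R t := by
    have h1 : IntervalIntegrable R volume 0 s :=
      (intervalIntegrable_iff_integrableOn_Icc_of_le hsI.1).2
        (hRb.mono_set (Icc_subset_Icc_right hsI.2))
    have h2 : IntervalIntegrable R volume s c :=
      (intervalIntegrable_iff_integrableOn_Icc_of_le hsI.2).2 hRi'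
    have h3 := intervalIntegral.integral_add_adjacent_intervals h1 h2
    have h4 : 0 ≤ ∫ t in (0 : ℝ)..s, R t := by
      rw [intervalIntegral.integral_of_le hsI.1, integral_Ioc_eq_integral_Ioo]
      exact setIntegral_nonneg measurableSet_Ioo fun t ht =>
        hR0 t ⟨ht.1, ht.2.trans_le (hsI.2.trans hc.2.le)⟩
    linarith
  have hIc : ∫ s in (0 : ℝ)..c, R s = ∫ s in Ioo 0 c, R s := by
    rw [intervalIntegral.integral_of_le hc.1.le, integral_Ioc_eq_integral_Ioo]
  have hMs : Φ (Mx u s) ≤ Θ (Real.log K) := by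
    refine hΘm ?_
    have h1 : max (Mx u s) 1 ≤ K ^ 2 := max_le (Mx_le hsK) (one_le_pow₀ hK1)
    have h2 := Real.log_le_log (lt_max_of_lt_right one_pos) h1
    rw [Real.log_pow] at h2
    push_cast at h2
    linarith
  have hMc : Θ (Real.log (nrm (vort (u c) x₂))) ≤ Φ (Mx u c) := by
    refine hΘm ?_
    have h0 : 0 < nrm (vort (u c) x₂) := by linarith
    have h1 : nrm (vort (u c) x₂) ^ 2 ≤ max (Mx u c) 1 := by
      rw [← Wq_eq]
      exact (Wq_le h.sol ⟨hc.1.le, hc.2⟩ x₂).trans (le_max_left _ _)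
    have h2 := Real.log_le_log (by positivity) h1
    rw [Real.log_pow] at h2
    push_cast at h2
    linarith
  have hfin : ∫ s in (Real.log K)..(Real.log (nrm (vort (u c) x₂))), 1 / φ s
      = Θ (Real.log (nrm (vort (u c) x₂))) - Θ (Real.log K) := by
    rw [hΘdiff]
    refine intervalIntegral.integral_congr fun r hr => ?_
    have hle : Real.log K ≤ Real.log (nrm (vort (u c) x₂)) :=
      Real.log_le_log (by linarith) hx₂
    rw [uIcc_of_le hle] at hr
    have hr0 : 0 ≤ r := (Real.log_nonneg hK1).trans hr.1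
    simp only [hg]
    rw [max_eq_left hr0]
  rw [hfin]
  linarith

/-- Finiteness of the Beale-Kato-Majda integral. -/
theorem osgood_bkm (h : IsC2Solution T u p) {φ R : ℝ → ℝ} {Λ : ℝ}
    (hφc : ContinuousOn φ (Ici 0)) (hφ1 : ∀ s, 0 ≤ s → 1 ≤ φ s)
    (hφi : ¬ IntegrableOn (fun s => 1 / φ s) (Ioi 0))
    (hR0 : ∀ t ∈ Ioo 0 T, 0 ≤ R t) (hRi : IntegrableOn R (Ioo 0 T))
    (hyp : ∀ᵐ t, t ∈ Ioo 0 T → ∃ x, IsMaxPt u t x ∧ (max 1 Λ < nrm (vort (u t) x) →
      Pq u t x ≤ R t * φ (Real.log (nrm (vort (u t) x))) * Wq u t x)) :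
    BKMFinite T u := by
  unfold BKMFinite
  rcases le_or_gt T 0 with hT | hT
  · rw [Ioo_eq_empty (not_lt.2 hT)]
    simp
  obtain ⟨W, hW0, hW⟩ := vort_bound h.sol (b := 0) hT
  set K := max (max 1 Λ) W with hK
  have hK1 : 1 ≤ K := (le_max_left _ _).trans (le_max_left _ _)
  have hK0 : ∀ x, nrm (vort (u 0) x) ≤ K := fun x =>
    ((hW 0 ⟨le_rfl, le_rfl⟩ x).1).trans (le_max_right _ _)
  have hb := osgood h hφc hφ1 hR0 hRi (K := K) (by
    filter_upwards [hyp] with t ht htI
    obtain ⟨x, hx, hx2⟩ := ht htI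
    exact ⟨x, hx, fun h1 => hx2 ((le_max_left _ _).trans_lt h1)⟩) hK1 hK0
  set J := ∫ s in Ioo 0 T, R s with hJ
  have hlogK : 0 ≤ Real.log K := Real.log_nonneg hK1
  -- the Osgood integral is unbounded
  obtain ⟨Y, hYK, hY⟩ : ∃ Y, Real.log K ≤ Y ∧ J < ∫ s in (Real.log K)..Y, 1 / φ s := by
    by_contra hcon
    push Not at hcon
    apply hφi
    have hc1 : ContinuousOn (fun s => 1 / φ s) (Ici 0) :=
      continuousOn_const.div hφc fun s hs => by have := hφ1 s hs; positivity
    have hsplit : Ioi (0 : ℝ) ⊆ Icc 0 (Real.log K) ∪ Ioi (Real.log K) := by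
      intro s hs
      rcases le_or_gt s (Real.log K) with h1 | h1
      · exact Or.inl ⟨le_of_lt hs, h1⟩
      · exact Or.inr h1
    have hi1 : IntegrableOn (fun s => 1 / φ s) (Icc 0 (Real.log K)) :=
      (hc1.mono Icc_subset_Ici_self).integrableOn_Icc
    have hi2 : IntegrableOn (fun s => 1 / φ s) (Ioi (Real.log K)) := by
      refine integrableOn_Ioi_of_intervalIntegral_norm_bounded J (Real.log K)
        (b := fun Y => Y) (l := atTop) (fun Y => ?_) tendsto_id ?_
      · exact ((hc1.mono fun s hs => hlogK.trans hs.1).integrableOn_Icc).mono_set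
          Ioc_subset_Icc_self
      · filter_upwards [eventually_ge_atTop (Real.log K)] with Y hY
        refine le_trans (le_of_eq ?_) (hcon Y hY)
        refine intervalIntegral.integral_congr fun s hs => ?_
        rw [uIcc_of_le hY] at hs
        have := hφ1 s (hlogK.trans hs.1)
        simp only [Real.norm_eq_abs]
        rw [abs_of_nonneg (by positivity)]
    exact (hi1.union hi2).mono_set hsplit
  set M := Real.exp Y with hM
  have hle : ∀ t ∈ Ioo 0 T, ∀ x, nrm (vort (u t) x) ≤ M := by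
    intro t ht x
    by_contra hcon
    push Not at hcon
    have hKM : K ≤ M := by
      rw [hM, ← Real.exp_log (show 0 < K by linarith)]
      exact Real.exp_le_exp.2 hYK
    have h1 := hb t ht x (hKM.trans hcon.le)
    have h2 : ∫ s in Ioo 0 t, R s ≤ J := by
      refine setIntegral_mono_set hRi ?_ (Ioo_subset_Ioo_right ht.2.le).eventuallyLE
      exact (ae_restrict_iff' measurableSet_Ioo).2 (Eventually.of_forall fun s hs => hR0 s hs)
    have h3 : Y ≤ Real.log (nrm (vort (u t) x)) := by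
      rw [← Real.log_exp Y]
      exact Real.log_le_log (Real.exp_pos _) hcon.le
    have hc1 : ∀ a b, 0 ≤ a → a ≤ b → IntervalIntegrable (fun s => 1 / φ s) volume a b := by
      intro a b ha hab
      refine ContinuousOn.intervalIntegrable ?_
      rw [uIcc_of_le hab]
      exact continuousOn_const.div (hφc.mono fun s hs => ha.trans hs.1) fun s hs => by
        have := hφ1 s (ha.trans hs.1)
        positivity
    have h4 := intervalIntegral.integral_add_adjacent_intervals
      (hc1 (Real.log K) Y hlogK hYK) (hc1 Y _ (hlogK.trans hYK) h3)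
    have h5 : 0 ≤ ∫ s in Y..(Real.log (nrm (vort (u t) x))), 1 / φ s :=
      intervalIntegral.integral_nonneg h3 fun s hs => by
        have := hφ1 s ((hlogK.trans hYK).trans hs.1)
        positivity
    linarith
  have h1 : ∫⁻ t in Ioo 0 T, ⨆ x, ENNReal.ofReal (nrm (vort (u t) x))
      ≤ ∫⁻ _t in Ioo 0 T, ENNReal.ofReal M := by
    refine setLIntegral_mono' measurableSet_Ioo fun t ht => ?_
    exact iSup_le fun x => ENNReal.ofReal_le_ofReal (hle t ht x)
  refine h1.trans_lt ?_
  rw [setLIntegral_const, Real.volume_Ioo]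
  exact ENNReal.mul_lt_top ENNReal.ofReal_lt_top ENNReal.ofReal_lt_top

end Pool.Agent.V11287.Eul
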