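import Pool.Agent.V11287.Eul.Lin2
import Pool.Agent.V11287.Eul.Osg

/-!
# The stretching rate and the positive part of the kernel of Constantin, Fefferman and Majda
-/

open MeasureTheory Set Filter
open scoped ENNReal NNReal Topology

namespace Pool.Agent.V11287.Eul

open Pool.Agent.H708R2.EulerSign Pool.Agent.H708R2.EulerTypeI Pool.Agent.W786.Dir

variable {v : V → V}

/-- The function `(y · e) det(y, ω(x + y), e)`, where `ω` is the vorticity of `v`. -/
noncomputable def kf (v : V → V) (x e y : V) : ℝ := (y ⬝ᵥ e) * (vort v (x + y) ⬝ᵥ cross e y)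

/-- The positive part of the singular integral. -/
noncomputable def kInt (v : V → V) (x e : V) (ρ : ℝ) : ℝ≥0∞ :=
  ∫⁻ y in {y : V | nrm y < ρ}, ENNReal.ofReal (kf v x e y / nrm y ^ 5)

lemma kf_smul (v : V → V) (x e : V) (r : ℝ) (z : V) :
    kf v x e (r • z) = r ^ 2 * ((z ⬝ᵥ e) * (vort v (x + r • z) ⬝ᵥ cross e z)) := by
  simp only [kf, cross, dotProduct, Fin.sum_univ_three, Matrix.cons_val_zero,
    Matrix.cons_val_one, Matrix.cons_val, Pi.smul_apply, smul_eq_mul]
  ring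

lemma kf_cont (hv : ContDiff ℝ 2 v) (x e : V) : Continuous (kf v x e) := by
  have h1 : Continuous fun y : V => vort v (x + y) := (vort_cont hv).comp (by fun_prop)
  have h2 : ∀ i, Continuous fun y : V => vort v (x + y) i := fun i => (continuous_apply i).comp h1
  have h3 := h2 0
  have h4 := h2 1
  have h5 := h2 2
  unfold kf
  simp only [cross, dotProduct, Fin.sum_univ_three, Matrix.cons_val_zero,
    Matrix.cons_val_one, Matrix.cons_val]
  fun_prop

/-- Dilations and the Lebesgue integral. -/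
lemma lint_smul {g : V → ℝ≥0∞} (hg : Measurable g) {r : ℝ} (hr : 0 < r) :
    ∫⁻ z, g (r • z) = ENNReal.ofReal (r ^ 3)⁻¹ * ∫⁻ y, g y := by
  have h1 : ∫⁻ y, g y ∂(Measure.map (fun z : V => r • z) volume) = ∫⁻ z, g (r • z) :=
    lintegral_map hg (by fun_prop)
  have h2 := Measure.map_addHaar_smul (volume : Measure V) hr.ne'
  have h3 : Module.finrank ℝ V = 3 := by simp [V]
  rw [h3, abs_of_pos (by positivity)] at h2
  rw [← h1, h2, lintegral_smul_measure, smul_eq_mul]

lemma P2_zero {r : ℝ} {y : V} (hr : 0 < r) (h : r ≤ nrm y) : P 2 (r⁻¹ • y) = 0 := by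
  refine P_zero_of (one_le_dot ?_)
  rw [nrm_smul, abs_of_pos (inv_pos.2 hr), not_lt, inv_mul_eq_div, le_div_iff₀ hr, one_mul]
  exact h

/-- The integral of the weights over the radius. -/
lemma radial {ε ρ : ℝ} (hε : 0 < ε) {y : V} (hy : 0 < nrm y) :
    ∫⁻ r in Ioc ε ρ, ENNReal.ofReal (6 * (r⁻¹ ^ 6 * P 2 (r⁻¹ • y)))
      ≤ ENNReal.ofReal (6 / 5 * (nrm y ^ 5)⁻¹) := by
  have h1 : ∫⁻ r in Ioc ε ρ, ENNReal.ofReal (6 * (r⁻¹ ^ 6 * P 2 (r⁻¹ • y)))
      ≤ ∫⁻ r in Ioc ε ρ, (Ioi (nrm y)).indicator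
        (fun r => ENNReal.ofReal (6 * r ^ (-6 : ℝ))) r := by
    refine setLIntegral_mono' measurableSet_Ioc fun r hr => ?_
    have hr0 : 0 < r := hε.trans hr.1
    rcases le_or_gt r (nrm y) with h | h
    · rw [P2_zero hr0 h]
      simp
    · rw [indicator_of_mem (mem_Ioi.2 h)]
      refine ENNReal.ofReal_le_ofReal ?_
      have e1 : r ^ (-6 : ℝ) = r⁻¹ ^ 6 := by
        rw [Real.rpow_neg hr0.le, inv_pow]
        congr 1
        exact_mod_cast Real.rpow_natCast r 6
      rw [e1]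
      have := P_le_one 2 (r⁻¹ • y)
      have h2 : 0 ≤ r⁻¹ ^ 6 := by positivity
      nlinarith
  refine h1.trans ?_
  refine (lintegral_mono' Measure.restrict_le_self le_rfl).trans ?_
  rw [lintegral_indicator measurableSet_Ioi]
  have hi : IntegrableOn (fun r : ℝ => 6 * r ^ (-6 : ℝ)) (Ioi (nrm y)) :=
    (integrableOn_Ioi_rpow_of_lt (by norm_num) hy).const_mul 6
  rw [← ofReal_integral_eq_lintegral_ofReal hi]
  · refine ENNReal.ofReal_le_ofReal (le_of_eq ?_)
    rw [integral_const_mul, integral_Ioi_rpow_of_lt (by norm_num) hy]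
    have e1 : nrm y ^ ((-6 : ℝ) + 1) = (nrm y ^ 5)⁻¹ := by
      rw [show ((-6 : ℝ) + 1) = -5 by norm_num, Real.rpow_neg hy.le]
      congr 1
      exact_mod_cast Real.rpow_natCast (nrm y) 5
    rw [e1]
    ring
  · refine (ae_restrict_iff' measurableSet_Ioi).2 (Eventually.of_forall fun r hr => ?_)
    have hr0 : 0 < r := hy.trans hr
    show 0 ≤ 6 * r ^ (-6 : ℝ)
    positivity

/-- The positive part of the derivative of the averages. -/
noncomputable def qf (v : V → V) (x e : V) (r : ℝ) : ℝ :=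
  ∫ z, P 2 z * max 0 ((z ⬝ᵥ e) * (vort v (x + r • z) ⬝ᵥ cross e z))

lemma qf_integrand_cont (hv : ContDiff ℝ 2 v) (x e : V) : Continuous fun q : ℝ × V =>
    P 2 q.2 * max 0 ((q.2 ⬝ᵥ e) * (vort v (x + q.1 • q.2) ⬝ᵥ cross e q.2)) := by
  have h1 : Continuous fun q : ℝ × V => vort v (x + q.1 • q.2) :=
    (vort_cont hv).comp (by fun_prop)
  have h2 : ∀ i, Continuous fun q : ℝ × V => vort v (x + q.1 • q.2) i := fun i =>
    (continuous_apply i).comp h1
  have h3 := h2 0
  have h4 := h2 1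
  have h5 := h2 2
  have h6 : Continuous fun q : ℝ × V => P 2 q.2 := (P_cont 2).comp continuous_snd
  refine h6.mul (continuous_const.max ?_)
  simp only [cross, dotProduct, Fin.sum_univ_three, Matrix.cons_val_zero,
    Matrix.cons_val_one, Matrix.cons_val]
  fun_prop

lemma P_zero_off {z : V} (hz : z ∉ Metric.closedBall (0 : V) 1) (n : ℕ) : P (n + 1) z = 0 :=
  P_zero_of (one_le_dot fun h => hz (ball_sub h))

lemma qf_cont (hv : ContDiff ℝ 2 v) (x e : V) : Continuous (qf v x e) := by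
  have h1 := continuous_parametric_integral_of_continuous (μ := (volume : Measure V))
    (f := fun (r : ℝ) (z : V) => P 2 z * max 0 ((z ⬝ᵥ e) * (vort v (x + r • z) ⬝ᵥ cross e z)))
    (qf_integrand_cont hv x e) (isCompact_closedBall (0 : V) 1)
  refine h1.congr fun r => ?_
  unfold qf
  refine setIntegral_eq_integral_of_forall_compl_eq_zero fun z hz => ?_
  rw [show P 2 z = 0 from P_zero_off hz 1, zero_mul]

lemma qf_nonneg (v : V → V) (x e : V) (r : ℝ) : 0 ≤ qf v x e r :=
  integral_nonneg fun z => mul_nonneg (P_nonneg 2 z) (le_max_left _ _)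

lemma qf_lint (hv : ContDiff ℝ 2 v) (x e : V) {r : ℝ} (hr : 0 < r) :
    ENNReal.ofReal (6 / r * qf v x e r)
      = ∫⁻ y, ENNReal.ofReal (6 * (r⁻¹ ^ 6 * P 2 (r⁻¹ • y))) * ENNReal.ofReal (kf v x e y) := by
  have hc : Continuous fun z : V => P 2 z * max 0 ((z ⬝ᵥ e) * (vort v (x + r • z) ⬝ᵥ cross e z)) :=
    (qf_integrand_cont hv x e).comp (by fun_prop : Continuous fun z : V => ((r, z) : ℝ × V))
  have hi : Integrable fun z : V =>
      P 2 z * max 0 ((z ⬝ᵥ e) * (vort v (x + r • z) ⬝ᵥ cross e z)) :=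
    hc.integrable_of_hasCompactSupport (P_supp 1).mul_right
  set g : V → ℝ≥0∞ := fun y =>
    ENNReal.ofReal (r⁻¹ ^ 2 * P 2 (r⁻¹ • y)) * ENNReal.ofReal (kf v x e y) with hg
  have hgm1 : Measurable fun y : V => ENNReal.ofReal (r⁻¹ ^ 2 * P 2 (r⁻¹ • y)) := by
    have h0 : Continuous fun y : V => r⁻¹ ^ 2 * P 2 (r⁻¹ • y) :=
      continuous_const.mul ((P_cont 2).comp (continuous_const_smul _))
    exact h0.measurable.ennreal_ofReal
  have hgm2 : Measurable fun y : V => ENNReal.ofReal (kf v x e y) :=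
    (kf_cont hv x e).measurable.ennreal_ofReal
  have hgm : Measurable g := hgm1.mul hgm2
  have h1 : ENNReal.ofReal (qf v x e r) = ∫⁻ z, g (r • z) := by
    unfold qf
    rw [ofReal_integral_eq_lintegral_ofReal hi (Eventually.of_forall fun z =>
      mul_nonneg (P_nonneg 2 z) (le_max_left _ _))]
    refine lintegral_congr fun z => ?_
    simp only [hg]
    rw [kf_smul, smul_smul, inv_mul_cancel₀ hr.ne', one_smul, ← ENNReal.ofReal_mul (by
      have := P_nonneg 2 z
      positivity)]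
    have e1 : r⁻¹ ^ 2 * P 2 z * (r ^ 2 * ((z ⬝ᵥ e) * (vort v (x + r • z) ⬝ᵥ cross e z)))
        = P 2 z * ((z ⬝ᵥ e) * (vort v (x + r • z) ⬝ᵥ cross e z)) := by
      field_simp
    rw [e1, ENNReal.ofReal_mul (P_nonneg 2 z), ENNReal.ofReal_mul (P_nonneg 2 z)]
    congr 1
    rcases le_total 0 ((z ⬝ᵥ e) * (vort v (x + r • z) ⬝ᵥ cross e z)) with h | h
    · rw [max_eq_right h]
    · rw [max_eq_left h, ENNReal.ofReal_of_nonpos h, ENNReal.ofReal_zero]
  rw [ENNReal.ofReal_mul (by positivity), h1, lint_smul hgm hr, ← mul_assoc,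
    ← ENNReal.ofReal_mul (by positivity), ← lintegral_const_mul _ hgm]
  refine lintegral_congr fun y => ?_
  simp only [hg]
  rw [← mul_assoc, ← ENNReal.ofReal_mul (by positivity)]
  congr 2
  field_simp


end Pool.Agent.V11287.Eul
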