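import Pool.Agent.V11287.Eul.Ker

/-!
# The stretching rate and the positive part of the kernel: Tonelli
-/

open MeasureTheory Set Filter
open scoped ENNReal NNReal Topology

namespace Pool.Agent.V11287.Eul

open Pool.Agent.H708R2.EulerSign Pool.Agent.H708R2.EulerTypeI Pool.Agent.W786.Dir

variable {v : V → V}

/-- The weight. -/
noncomputable def wf (r : ℝ) (y : V) : ℝ≥0∞ := ENNReal.ofReal (6 * (r⁻¹ ^ 6 * P 2 (r⁻¹ • y)))

lemma wf_meas : Measurable fun q : ℝ × V => wf q.1 q.2 := by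
  have h1 : Measurable fun q : ℝ × V => q.1⁻¹ := measurable_fst.inv
  have h2 : Measurable fun q : ℝ × V => q.1⁻¹ • q.2 := h1.smul measurable_snd
  have h3 : Measurable fun q : ℝ × V => P 2 (q.1⁻¹ • q.2) := (P_cont 2).measurable.comp h2
  exact ((measurable_const.mul ((h1.pow_const 6).mul h3))).ennreal_ofReal

lemma wf_meas1 (y : V) : Measurable fun r : ℝ => wf r y := by
  have h1 : Measurable fun r : ℝ => r⁻¹ := measurable_inv
  have h2 : Measurable fun r : ℝ => r⁻¹ • y := h1.smul measurable_const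
  have h3 : Measurable fun r : ℝ => P 2 (r⁻¹ • y) := (P_cont 2).measurable.comp h2
  have h4 : Measurable fun r : ℝ => 6 * (r⁻¹ ^ 6 * P 2 (r⁻¹ • y)) :=
    measurable_const.mul ((h1.pow_const 6).mul h3)
  exact h4.ennreal_ofReal

lemma swap_mul {ε ρ : ℝ} {k : V → ℝ≥0∞} (hk : Measurable k) :
    ∫⁻ r in Ioc ε ρ, ∫⁻ y, wf r y * k y = ∫⁻ y, (∫⁻ r in Ioc ε ρ, wf r y) * k y := by
  have h1 : Measurable fun q : ℝ × V => wf q.1 q.2 * k q.2 := wf_meas.mul (hk.comp measurable_snd)
  have h2 := lintegral_lintegral_swap (μ := volume.restrict (Ioc ε ρ)) (ν := (volume : Measure V))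
    (f := fun r y => wf r y * k y) h1.aemeasurable
  rw [h2]
  refine lintegral_congr fun y => ?_
  exact lintegral_mul_const (k y) (wf_meas1 y)

lemma wf_zero {ε ρ : ℝ} (hε : 0 < ε) {y : V} (hy : ρ ≤ nrm y) :
    ∫⁻ r in Ioc ε ρ, wf r y = 0 := by
  have h1 : ∫⁻ r in Ioc ε ρ, wf r y = ∫⁻ _r in Ioc ε ρ, (0 : ℝ≥0∞) := by
    refine setLIntegral_congr_fun measurableSet_Ioc fun r hr => ?_
    show wf r y = 0
    unfold wf
    rw [P2_zero (hε.trans hr.1) (hr.2.trans hy)]
    simp
  rw [h1]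
  simp

lemma wf_pt (v : V → V) (x e : V) {ε ρ : ℝ} (hε : 0 < ε) (y : V) :
    (∫⁻ r in Ioc ε ρ, wf r y) * ENNReal.ofReal (kf v x e y)
      ≤ {y : V | nrm y < ρ}.indicator
        (fun y => ENNReal.ofReal (6 / 5) * ENNReal.ofReal (kf v x e y / nrm y ^ 5)) y := by
  by_cases hy : nrm y < ρ
  · rw [indicator_of_mem (show y ∈ {y : V | nrm y < ρ} from hy)]
    rcases (nrm_nonneg y).lt_or_eq with h0 | h0
    · have h1 : ∫⁻ r in Ioc ε ρ, wf r y ≤ ENNReal.ofReal (6 / 5 * (nrm y ^ 5)⁻¹) :=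
        radial (ρ := ρ) hε h0
      have h2 : ENNReal.ofReal (6 / 5 * (nrm y ^ 5)⁻¹) * ENNReal.ofReal (kf v x e y)
          = ENNReal.ofReal (6 / 5) * ENNReal.ofReal (kf v x e y / nrm y ^ 5) := by
        rw [ENNReal.ofReal_mul (by norm_num), mul_assoc, ← ENNReal.ofReal_mul (by positivity)]
        congr 2
        rw [div_eq_inv_mul]
      rw [← h2]
      gcongr
    · have hy0 : y = 0 := nrm_eq_zero h0.symm
      have h1 : kf v x e y = 0 := by
        rw [hy0]
        simp [kf]
      rw [h1]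
      simp
  · rw [indicator_of_notMem (show y ∉ {y : V | nrm y < ρ} from hy), wf_zero hε (not_lt.1 hy),
      zero_mul]

/-- Tonelli's theorem for the weights. -/
lemma tonelli (hv : ContDiff ℝ 2 v) (x e : V) {ε ρ : ℝ} (hε : 0 < ε) :
    ∫⁻ r in Ioc ε ρ, ENNReal.ofReal (6 / r * qf v x e r)
      ≤ ENNReal.ofReal (6 / 5) * kInt v x e ρ := by
  have hS : MeasurableSet {y : V | nrm y < ρ} := (isOpen_lt nrm_cont continuous_const).measurableSet
  have hmk : Measurable fun y : V => ENNReal.ofReal (kf v x e y) :=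
    (kf_cont hv x e).measurable.ennreal_ofReal
  have h1 : ∫⁻ r in Ioc ε ρ, ENNReal.ofReal (6 / r * qf v x e r)
      = ∫⁻ r in Ioc ε ρ, ∫⁻ y, wf r y * ENNReal.ofReal (kf v x e y) :=
    setLIntegral_congr_fun measurableSet_Ioc fun r hr => qf_lint hv x e (hε.trans hr.1)
  rw [h1, swap_mul hmk]
  have h2 : ENNReal.ofReal (6 / 5) * kInt v x e ρ
      = ∫⁻ y, {y : V | nrm y < ρ}.indicator
        (fun y => ENNReal.ofReal (6 / 5) * ENNReal.ofReal (kf v x e y / nrm y ^ 5)) y := by
    rw [lintegral_indicator hS, lintegral_const_mul' _ _ ENNReal.ofReal_ne_top]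
    rfl
  rw [h2]
  exact lintegral_mono fun y => wf_pt v x e hε y

/-- The averages are bounded by the oscillation of one component of the velocity. -/
lemma avg_osc_e (hv : ContDiff ℝ 2 v) {x₀ e : V} (he : nrm e ≤ 1) {r U : ℝ} (hr : 0 < r)
    (hU : ∃ c : ℝ, ∫ z in {z : V | nrm z < 1}, |e ⬝ᵥ v (x₀ + r • z) - c| ≤ U) :
    |∫ z, P 3 z * rate v e (x₀ + r • z)| ≤ 6 * U / r := by
  obtain ⟨c, hc⟩ := hU
  have hvj : ∀ j, ContDiff ℝ 1 fun y => v y j := fun j =>
    (contDiff_pi.1 hv j).of_le (by norm_num)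
  set w : V → ℝ := fun y => ∑ j, e j * v y j with hw
  have cw : ContDiff ℝ 1 w := ContDiff.sum fun j _ => contDiff_const.mul (hvj j)
  set δ : V → ℝ := fun z => w (x₀ + r • z) - c with hδ
  have cδ : ContDiff ℝ 1 δ := (comp_aff cw x₀ r).sub contDiff_const
  have dδ : ∀ z, fderiv ℝ δ z e = r * rate v e (x₀ + r • z) := by
    intro z
    have h1 : fderiv ℝ δ z = fderiv ℝ (fun z => w (x₀ + r • z)) z := fderiv_sub_const _
    rw [h1, fderiv_comp_aff cw, smul_eq_mul]
    congr 1
    have h2 : HasFDerivAt v (fderiv ℝ v (x₀ + r • z)) (x₀ + r • z) :=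
      ((hv.differentiable two_ne_zero) _).hasFDerivAt
    have h3 : HasFDerivAt w (∑ j, e j • ((ContinuousLinearMap.proj j : V →L[ℝ] ℝ) ∘L
        fderiv ℝ v (x₀ + r • z))) (x₀ + r • z) :=
      HasFDerivAt.fun_sum fun j _ => (hasFDerivAt_pi'.1 h2 j).const_mul (e j)
    rw [h3.fderiv]
    have h4 : fderiv ℝ v (x₀ + r • z) e = ∑ k, e k • fderiv ℝ v (x₀ + r • z) (Pi.single k 1) := by
      conv_lhs => rw [show e = ∑ k, e k • (Pi.single k 1 : V) by
        ext i; simp [Finset.sum_apply, Pi.single_apply]]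
      rw [map_sum]
      simp
    simp only [FunLike.coe_sum, Finset.sum_apply, FunLike.coe_smul, Pi.smul_apply,
      ContinuousLinearMap.comp_apply, smul_eq_mul, h4, rate, dotProduct, Matrix.mulVec, grad,
      Matrix.of_apply]
    refine Finset.sum_congr rfl fun j _ => ?_
    simp [mul_comm]
  have h1 : r * ∫ z, P 3 z * rate v e (x₀ + r • z) = -∫ z, fderiv ℝ (P 3) z e * δ z := by
    rw [← ibp (P_contDiff 1) (P_supp 2) cδ e, ← integral_const_mul]
    refine integral_congr_ae (Eventually.of_forall fun z => ?_)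
    simp only [dδ]
    ring
  have hδc : Continuous fun z : V => |e ⬝ᵥ v (x₀ + r • z) - c| := by
    have h0 : Continuous fun z : V => v (x₀ + r • z) := hv.continuous.comp (by fun_prop)
    have h1 : Continuous fun z : V => dotL e (v (x₀ + r • z)) := (dotL e).continuous.comp h0
    have h2 : Continuous fun z : V => |dotL e (v (x₀ + r • z)) - c| := by fun_prop
    simpa only [dotL_apply] using h2
  have hδi : IntegrableOn (fun z : V => |e ⬝ᵥ v (x₀ + r • z) - c|) {z : V | nrm z < 1} :=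
    (hδc.continuousOn.integrableOn_compact (isCompact_closedBall (0 : V) 1)).mono_set ball_sub
  have h2 : |∫ z, fderiv ℝ (P 3) z e * δ z| ≤ 6 * U := by
    have hb1 : Integrable ({z : V | nrm z < 1}.indicator
        (fun z => 6 * |e ⬝ᵥ v (x₀ + r • z) - c|)) := by
      rw [integrable_indicator_iff meas_ball]
      exact hδi.const_mul 6
    have hb2 : ∀ z, ‖fderiv ℝ (P 3) z e * δ z‖ ≤ {z : V | nrm z < 1}.indicator
        (fun z => 6 * |e ⬝ᵥ v (x₀ + r • z) - c|) z := by
      intro z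
      rw [Real.norm_eq_abs, abs_mul, show P 3 = P (1 + 2) from rfl, P_fderiv 1 z e]
      by_cases hz : nrm z < 1
      · rw [indicator_of_mem (show z ∈ {z : V | nrm z < 1} from hz)]
        have b1 : |z ⬝ᵥ e| ≤ 1 := (dot_le _ _).trans (mul_le_one₀ hz.le (nrm_nonneg _) he)
        have b2 : δ z = e ⬝ᵥ v (x₀ + r • z) - c := by
          simp only [hδ, hw, dotProduct]
        have e3 : |-2 * (((1 : ℕ) : ℝ) + 2) * P (1 + 1) z * (z ⬝ᵥ e)|
            = 6 * P 2 z * |z ⬝ᵥ e| := by
          rw [abs_mul, abs_mul, abs_of_nonneg (P_nonneg (1 + 1) z)]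
          norm_num
        rw [e3, b2]
        have hp := P_nonneg 2 z
        have hp1 := P_le_one 2 z
        have hn := abs_nonneg (e ⬝ᵥ v (x₀ + r • z) - c)
        calc 6 * P 2 z * |z ⬝ᵥ e| * |e ⬝ᵥ v (x₀ + r • z) - c|
            ≤ 6 * 1 * 1 * |e ⬝ᵥ v (x₀ + r • z) - c| := by gcongr
          _ = 6 * |e ⬝ᵥ v (x₀ + r • z) - c| := by ring
      · rw [indicator_of_notMem (show z ∉ {z : V | nrm z < 1} from hz)]
        have e3 : P (1 + 1) z = 0 := P_zero_of (one_le_dot hz)
        rw [e3]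
        simp
    rw [← Real.norm_eq_abs]
    refine (norm_integral_le_of_norm_le hb1 (Eventually.of_forall hb2)).trans ?_
    rw [integral_indicator meas_ball, integral_const_mul]
    linarith
  have h3 : |∫ z, P 3 z * rate v e (x₀ + r • z)| * r ≤ 6 * U := by
    rw [← abs_of_pos hr, ← abs_mul, mul_comm, abs_of_pos hr, h1, abs_neg]
    exact h2
  rwa [← le_div_iff₀ hr] at h3

/-- The constant of the estimate. -/
noncomputable def Ck : ℝ := 36 / 5 / ∫ z, P 3 z

lemma Ck_pos : 0 < Ck := by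
  have h3 : 0 < ∫ z, P 3 z := P_int_pos 2
  unfold Ck
  positivity

/-- The stretching rate is bounded by the positive part of the kernel and the oscillation of one
component of the velocity. -/
theorem ker_rate (hv : ContDiff ℝ 2 v) (hdiv : ∀ x, divergence v x = 0) {x e : V}
    (he : nrm e ≤ 1) {ρ N : ℝ} (hρ : 0 < ρ)
    (hU : ∃ c : ℝ, ∫ z in {z : V | nrm z < 1}, |e ⬝ᵥ v (x + ρ • z) - c| ≤ ρ * N)
    (hk : kInt v x e ρ ≤ ENNReal.ofReal N) : rate v e x ≤ Ck * N := by
  have c3 : 0 < ∫ z, P 3 z := P_int_pos 2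
  set I3 := ∫ z, P 3 z with hI3
  have hN : 0 ≤ N := by
    obtain ⟨c, hc⟩ := hU
    have h1 : 0 ≤ ρ * N := (integral_nonneg fun z => abs_nonneg _).trans hc
    exact nonneg_of_mul_nonneg_right h1 hρ
  set A : ℝ → ℝ := fun r => ∫ z, P 3 z * rate v e (x + r • z) with hA
  set A' : ℝ → ℝ := fun r => ∫ z, P 3 z * fderiv ℝ (rate v e) (x + r • z) z with hA'
  have hAd : ∀ r, HasDerivAt A (A' r) r := fun r =>
    param_deriv (P_cont 3) (P_supp 2) (rate_contDiff hv e) x r
  have hA0 : A 0 = I3 * rate v e x := by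
    simp only [hA, zero_smul, add_zero]
    rw [integral_mul_const]
  have hle : ∀ r, 0 < r → -A' r ≤ 6 / r * qf v x e r := by
    intro r hr
    have form : r * A' r
        = 6 * ∫ z, (z ⬝ᵥ e) * P 2 z * (vort v (x + r • z) ⬝ᵥ cross z e) :=
      rate_formula hv hdiv e x r
    have h1 : -∫ z, (z ⬝ᵥ e) * P 2 z * (vort v (x + r • z) ⬝ᵥ cross z e) ≤ qf v x e r := by
      rw [← integral_neg]
      unfold qf
      have hc1 : Continuous fun z : V => vort v (x + r • z) := (vort_cont hv).comp (by fun_prop)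
      have hc2 : ∀ i, Continuous fun z : V => vort v (x + r • z) i := fun i =>
        (continuous_apply i).comp hc1
      have hc3 := hc2 0
      have hc4 := hc2 1
      have hc5 := hc2 2
      have hcc : Continuous fun z : V => (z ⬝ᵥ e) * (vort v (x + r • z) ⬝ᵥ cross z e) := by
        simp only [cross, dotProduct, Fin.sum_univ_three, Matrix.cons_val_zero,
          Matrix.cons_val_one, Matrix.cons_val]
        fun_prop
      have hi1 : Integrable fun z : V =>
          -((z ⬝ᵥ e) * P 2 z * (vort v (x + r • z) ⬝ᵥ cross z e)) := by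
        have h0 : Integrable fun z : V =>
            P 2 z * ((z ⬝ᵥ e) * (vort v (x + r • z) ⬝ᵥ cross z e)) :=
          ((P_cont 2).mul hcc).integrable_of_hasCompactSupport (P_supp 1).mul_right
        refine h0.neg.congr (Eventually.of_forall fun z => ?_)
        simp only [Pi.neg_apply]
        ring
      have hc : Continuous fun z : V =>
          P 2 z * max 0 ((z ⬝ᵥ e) * (vort v (x + r • z) ⬝ᵥ cross e z)) :=
        (qf_integrand_cont hv x e).comp (by fun_prop : Continuous fun z : V => ((r, z) : ℝ × V))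
      have hi2 : Integrable fun z : V =>
          P 2 z * max 0 ((z ⬝ᵥ e) * (vort v (x + r • z) ⬝ᵥ cross e z)) :=
        hc.integrable_of_hasCompactSupport (P_supp 1).mul_right
      refine integral_mono hi1 hi2 fun z => ?_
      show -((z ⬝ᵥ e) * P 2 z * (vort v (x + r • z) ⬝ᵥ cross z e))
        ≤ P 2 z * max 0 ((z ⬝ᵥ e) * (vort v (x + r • z) ⬝ᵥ cross e z))
      have e1 : vort v (x + r • z) ⬝ᵥ cross z e = -(vort v (x + r • z) ⬝ᵥ cross e z) := by
        simp only [cross, dotProduct, Fin.sum_univ_three, Matrix.cons_val_zero,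
          Matrix.cons_val_one, Matrix.cons_val]
        ring
      rw [e1]
      have hp := P_nonneg 2 z
      have hm := le_max_right 0 ((z ⬝ᵥ e) * (vort v (x + r • z) ⬝ᵥ cross e z))
      calc -((z ⬝ᵥ e) * P 2 z * -(vort v (x + r • z) ⬝ᵥ cross e z))
          = P 2 z * ((z ⬝ᵥ e) * (vort v (x + r • z) ⬝ᵥ cross e z)) := by ring
        _ ≤ _ := mul_le_mul_of_nonneg_left hm hp
    rw [div_mul_eq_mul_div, le_div_iff₀ hr]
    linarith
  have hQc : ∀ ε, 0 < ε → ContinuousOn (fun r => 6 / r * qf v x e r) (Icc ε ρ) := fun ε hε =>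
    (continuousOn_const.div continuousOn_id fun r hr => (hε.trans_le hr.1).ne').mul
      (qf_cont hv x e).continuousOn
  have step : ∀ ε, 0 < ε → ε < ρ → A ε ≤ A ρ + 6 / 5 * N := by
    intro ε hε hερ
    have h1 := intervalIntegral.sub_le_integral_of_hasDeriv_right_of_le (g := fun r => -A r)
      (g' := fun r => -A' r) (φ := fun r => 6 / r * qf v x e r) hερ.le
      (fun r _ => (hAd r).neg.continuousAt.continuousWithinAt)
      (fun r _ => (hAd r).neg.hasDerivWithinAt) (hQc ε hε).integrableOn_Icc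
      (fun r hr => hle r (hε.trans hr.1))
    have h2 : ∫ r in ε..ρ, 6 / r * qf v x e r ≤ 6 / 5 * N := by
      rw [intervalIntegral.integral_of_le hερ.le]
      have hi : IntegrableOn (fun r => 6 / r * qf v x e r) (Ioc ε ρ) :=
        (hQc ε hε).integrableOn_Icc.mono_set Ioc_subset_Icc_self
      have h3 : ENNReal.ofReal (∫ r in Ioc ε ρ, 6 / r * qf v x e r)
          ≤ ENNReal.ofReal (6 / 5 * N) := by
        rw [ofReal_integral_eq_lintegral_ofReal hi]
        · refine (tonelli hv x e hε).trans ?_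
          rw [ENNReal.ofReal_mul (by norm_num)]
          gcongr
        · refine (ae_restrict_iff' measurableSet_Ioc).2 (Eventually.of_forall fun r hr => ?_)
          have hr0 : 0 < r := hε.trans hr.1
          have := qf_nonneg v x e r
          show 0 ≤ 6 / r * qf v x e r
          positivity
      rwa [ENNReal.ofReal_le_ofReal_iff (by positivity)] at h3
    linarith
  have h0 : A 0 ≤ A ρ + 6 / 5 * N := by
    have h1 : Tendsto A (𝓝[>] 0) (𝓝 (A 0)) := (hAd 0).continuousAt.mono_left nhdsWithin_le_nhds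
    refine le_of_tendsto h1 ?_
    filter_upwards [Ioo_mem_nhdsGT hρ] with ε hε
    exact step ε hε.1 hε.2
  have h1 : A ρ ≤ 6 * N := by
    have h2 := (le_abs_self _).trans (avg_osc_e hv he hρ hU)
    refine h2.trans (le_of_eq ?_)
    field_simp
  unfold Ck
  rw [div_mul_eq_mul_div, le_div_iff₀ c3, mul_comm, ← hA0]
  linarith

end Pool.Agent.V11287.Eul
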