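import Pool.Agent.V11287.Eul.Ker2

/-!
# The continuation criterion for the positive part of the kernel
-/

open MeasureTheory Set Filter
open scoped ENNReal NNReal Topology

namespace Pool.Agent.V11287.Eul

open Pool.Agent.H708R2.EulerSign Pool.Agent.H708R2.EulerTypeI Pool.Agent.W786.Sv
  Pool.Agent.W786.Dir Pool.Agent.W786.Max

variable {T : ℝ} {u : ℝ → V → V} {p : ℝ → V → ℝ}

/-- The condition at the point `x`, with `e = ω(x) / |ω(x)|`: for some `ρ > 0` and `c`,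
`∫_{|z| < 1} |e · v(x + ρ z) - c| dz ≤ ρ N`, and the integral over `|y| < ρ` of the positive part of
`(y · e) det(y, ω(x + y), e) / |y|⁵` is at most `N`. -/
def Depleted (v : V → V) (x : V) (N : ℝ) : Prop :=
  ∃ ρ : ℝ, 0 < ρ ∧
    (∃ c : ℝ, ∫ z in {z : V | nrm z < 1}, |dirv v x ⬝ᵥ v (x + ρ • z) - c| ≤ ρ * N) ∧
    kInt v x (dirv v x) ρ ≤ ENNReal.ofReal N

lemma nrm_dirv_le (v : V → V) (x : V) : nrm (dirv v x) ≤ 1 := by
  unfold dirv
  rw [nrm_smul, abs_inv, abs_of_nonneg (nrm_nonneg _)]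
  exact inv_mul_le_one

/-- The rate at a maximum point. -/
lemma ker_pq (h : IsC2Solution T u p) {t : ℝ} (ht : t ∈ Ioo 0 T) {x : V} {N : ℝ}
    (hd : Depleted (u t) x N) (hm : 0 < nrm (vort (u t) x)) :
    Pq u t x ≤ Ck * N * Wq u t x := by
  obtain ⟨ρ, hρ, hU, hk⟩ := hd
  have h1 := ker_rate (slice_two h ht) (fun x => h.sol.div_free t ⟨ht.1.le, ht.2⟩ x)
    (nrm_dirv_le (u t) x) hρ hU hk
  have h2 : Pq u t x = Wq u t x * rate (u t) (dirv (u t) x) x := by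
    rw [Wq_eq]
    set m := nrm (vort (u t) x) with hmdef
    have h3 : vort (u t) x = m • dirv (u t) x := by
      unfold dirv
      rw [smul_smul, ← hmdef, mul_inv_cancel₀ hm.ne', one_smul]
    unfold Pq
    rw [h3, Matrix.mulVec_smul, smul_dotProduct, dotProduct_smul, smul_eq_mul, smul_eq_mul, rate]
    ring
  rw [h2, mul_comm]
  exact mul_le_mul_of_nonneg_right h1 (Wq_nonneg _ _)

/-- The criterion. -/
theorem ker_main (h : IsC2Solution T u p) {φ B : ℝ → ℝ} {Λ : ℝ}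
    (hφc : ContinuousOn φ (Ici 0)) (hφ1 : ∀ s, 0 ≤ s → 1 ≤ φ s) (hΛ : 1 ≤ Λ)
    (hB0 : ∀ t ∈ Ioo 0 T, 0 ≤ B t) (hBi : IntegrableOn B (Ioo 0 T))
    (hyp : ∀ᵐ t, t ∈ Ioo 0 T → ∃ x, IsMaxPt u t x ∧ (Λ < nrm (vort (u t) x) →
      Depleted (u t) x (B t * φ (Real.log (nrm (vort (u t) x)))))) :
    (∀ K, Λ ≤ K → (∀ x, nrm (vort (u 0) x) ≤ K) →
      ∀ t ∈ Ioo 0 T, ∀ x, K ≤ nrm (vort (u t) x) →
        ∫ s in (Real.log K)..(Real.log (nrm (vort (u t) x))), 1 / φ s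
          ≤ Ck * ∫ s in Ioo 0 t, B s) ∧
    (¬ IntegrableOn (fun s => 1 / φ s) (Ioi 0) → BKMFinite T u) := by
  have hC := Ck_pos
  have hR0 : ∀ t ∈ Ioo 0 T, 0 ≤ Ck * B t := fun t ht => mul_nonneg hC.le (hB0 t ht)
  have hRi : IntegrableOn (fun t => Ck * B t) (Ioo 0 T) := hBi.const_mul Ck
  have hyp' : ∀ᵐ t, t ∈ Ioo 0 T → ∃ x, IsMaxPt u t x ∧ (Λ < nrm (vort (u t) x) →
      Pq u t x ≤ Ck * B t * φ (Real.log (nrm (vort (u t) x))) * Wq u t x) := by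
    filter_upwards [hyp] with t ht htI
    obtain ⟨x, hx, hx2⟩ := ht htI
    refine ⟨x, hx, fun hlt => ?_⟩
    have hm : 0 < nrm (vort (u t) x) := by linarith
    have h1 := ker_pq h htI (hx2 hlt) hm
    rwa [← mul_assoc] at h1
  constructor
  · intro K hK hK0 t ht x hx
    have h1 := osgood h (φ := φ) (R := fun t => Ck * B t) (K := K)
      hφc hφ1 hR0 hRi (by
        filter_upwards [hyp'] with t ht htI
        obtain ⟨x, hx, hx2⟩ := ht htI
        exact ⟨x, hx, fun h1 => hx2 (hK.trans_lt h1)⟩) (hΛ.trans hK) hK0 t ht x hx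
    rwa [integral_const_mul] at h1
  · intro hni
    refine osgood_bkm h (φ := φ) (R := fun t => Ck * B t) (Λ := Λ) hφc hφ1 hni hR0 hRi ?_
    filter_upwards [hyp'] with t ht htI
    obtain ⟨x, hx, hx2⟩ := ht htI
    exact ⟨x, hx, fun h1 => hx2 ((le_max_right _ _).trans_lt h1)⟩

end Pool.Agent.V11287.Eul
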