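import Pool.Agent.W786.Dir5

/-!
# The stretching rate of a vorticity which is parallel to a regular line field
-/

open MeasureTheory Set Filter
open scoped ENNReal NNReal Topology

namespace Pool.Agent.V11287.Eul

open Pool.Agent.H708R2.EulerSign Pool.Agent.H708R2.EulerTypeI Pool.Agent.W786.Dir

variable {v : V → V}

/-- The open Euclidean ball of radius `r` about `x`. -/
def Ball (x : V) (r : ℝ) : Set V := {y | nrm (y - x) < r}

/-- The oscillation `r⁻³ ∫_{|y - x| < r} |v(y) - c| dy` of `v` in the ball of radius `r` about `x` is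
at most `U`, for some vector `c`. -/
def OscLE (v : V → V) (x : V) (r U : ℝ) : Prop :=
  ∃ c : V, ∫ z in {z : V | nrm z < 1}, nrm (v (x + r • z) - c) ≤ U

/-- The conditions on the line field. -/
def LineOn (v : V → V) (x : V) (G : ℝ) (ξ : V → V) : Prop :=
  ContDiffOn ℝ 1 ξ (Ball x (1 / G)) ∧
    ∀ y ∈ Ball x (1 / G), vort v y = (vort v y ⬝ᵥ ξ y) • ξ y ∧ nrm (ξ y) ≤ 1 ∧
      ∀ z, nrm (fderiv ℝ ξ y z) ≤ G * nrm z

/-- Near `x` the vorticity `ω` of `v` is parallel to a regular line field, at the length scale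
`1 / G`, and `v` oscillates at most by `U`: on the ball of radius `1 / G` about `x` there is a `C¹`
field `ξ` with `ω = (ω · ξ) ξ`, `|ξ| ≤ 1` and derivative of norm at most `G` (the sign of `ω · ξ` is
arbitrary), and the oscillation of `v` in all balls of radius at most `1 / G` about `x` is at most
`U`. -/
def LineDirected (v : V → V) (x : V) (G U : ℝ) : Prop :=
  ∃ ξ : V → V, LineOn v x G ξ ∧ ∀ r ∈ Ioc 0 (1 / G), OscLE v x r U

lemma isOpen_Ball (x : V) (r : ℝ) : IsOpen (Ball x r) :=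
  isOpen_lt (nrm_cont.comp (continuous_id.sub continuous_const)) continuous_const

lemma nrm_zero' : nrm (0 : V) = 0 := by simp [nrm]

lemma center_mem {x : V} {r : ℝ} (hr : 0 < r) : x ∈ Ball x r := by
  show nrm (x - x) < r
  rwa [sub_self, nrm_zero']

lemma nrm_le_one {z : V} (hz : z ⬝ᵥ z ≤ 1) : nrm z ≤ 1 := by
  unfold nrm
  simpa using Real.sqrt_le_sqrt hz

lemma mem_ball_of {x₀ z : V} {r ρ : ℝ} (hr : 0 < r) (hrG : r < ρ) (hz : z ⬝ᵥ z ≤ 1) :
    x₀ + r • z ∈ Ball x₀ ρ ∧ nrm (x₀ + r • z - x₀) ≤ r := by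
  have h1 := nrm_le_one hz
  have h2 : nrm (x₀ + r • z - x₀) ≤ r := by
    rw [add_sub_cancel_left, nrm_smul, abs_of_pos hr]
    exact mul_le_of_le_one_right hr.le h1
  exact ⟨lt_of_le_of_lt h2 hrG, h2⟩

/-- Mean value inequality in a ball. -/
lemma lip_on {ξ : V → V} {x₀ : V} {G ρ : ℝ} (hξ : ContDiffOn ℝ 1 ξ (Ball x₀ ρ))
    (hb : ∀ y ∈ Ball x₀ ρ, ∀ z, nrm (fderiv ℝ ξ y z) ≤ G * nrm z) {y : V}
    (hy : y ∈ Ball x₀ ρ) (c : V) : |ξ y ⬝ᵥ c - ξ x₀ ⬝ᵥ c| ≤ nrm c * (G * nrm (y - x₀)) := by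
  set f : ℝ → ℝ := fun s => dotL c (ξ (x₀ + s • (y - x₀))) with hf
  have hmem : ∀ s ∈ Icc (0 : ℝ) 1, x₀ + s • (y - x₀) ∈ Ball x₀ ρ := by
    intro s hs
    show nrm (x₀ + s • (y - x₀) - x₀) < ρ
    rw [add_sub_cancel_left, nrm_smul, abs_of_nonneg hs.1]
    exact lt_of_le_of_lt (mul_le_of_le_one_left (nrm_nonneg _) hs.2) hy
  have hd : ∀ s ∈ Icc (0 : ℝ) 1,
      HasDerivAt f (dotL c (fderiv ℝ ξ (x₀ + s • (y - x₀)) (y - x₀))) s := by
    intro s hs
    have h1 : HasDerivAt (fun s : ℝ => x₀ + s • (y - x₀)) (y - x₀) s := by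
      simpa using ((hasDerivAt_id s).smul_const (y - x₀)).const_add x₀
    have h2 : HasFDerivAt ξ (fderiv ℝ ξ (x₀ + s • (y - x₀))) (x₀ + s • (y - x₀)) :=
      ((hξ.differentiableOn one_ne_zero).differentiableAt
        ((isOpen_Ball x₀ ρ).mem_nhds (hmem s hs))).hasFDerivAt
    exact (dotL c).hasFDerivAt.comp_hasDerivAt s (h2.comp_hasDerivAt s h1)
  obtain ⟨s, hs, hs2⟩ := exists_hasDerivAt_eq_slope f _ (zero_lt_one' ℝ)
    (fun s hs => (hd s hs).continuousAt.continuousWithinAt)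
    (fun s hs => hd s (Ioo_subset_Icc_self hs))
  have e1 : f 1 - f 0 = ξ y ⬝ᵥ c - ξ x₀ ⬝ᵥ c := by
    simp [hf, dotProduct_comm c]
  rw [sub_zero, div_one, e1] at hs2
  rw [← hs2, dotL_apply]
  exact (dot_le _ _).trans (mul_le_mul_of_nonneg_left
    (hb _ (hmem s (Ioo_subset_Icc_self hs)) _) (nrm_nonneg _))

lemma ball_sub : {z : V | nrm z < 1} ⊆ Metric.closedBall (0 : V) 1 := by
  intro z hz
  rw [mem_closedBall_zero_iff, pi_norm_le_iff_of_nonneg zero_le_one]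
  intro i
  rw [Real.norm_eq_abs]
  exact (abs_le_nrm z i).trans (le_of_lt hz)

lemma meas_ball : MeasurableSet {z : V | nrm z < 1} :=
  (isOpen_lt nrm_cont continuous_const).measurableSet

lemma osc_integrable (hv : Continuous v) (x₀ c : V) (r : ℝ) :
    IntegrableOn (fun z => nrm (v (x₀ + r • z) - c)) {z : V | nrm z < 1} := by
  have h1 : Continuous fun z => nrm (v (x₀ + r • z) - c) :=
    nrm_cont.comp ((hv.comp (by fun_prop)).sub continuous_const)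
  exact (h1.continuousOn.integrableOn_compact (isCompact_closedBall (0 : V) 1)).mono_set ball_sub

/-- Bounding an integral by the oscillation. -/
lemma osc_bound (hv : Continuous v) {x₀ c : V} {r M U : ℝ} (hM : 0 ≤ M)
    (hc : ∫ z in {z : V | nrm z < 1}, nrm (v (x₀ + r • z) - c) ≤ U) {f : V → ℝ}
    (hf : ∀ z, |f z| ≤ {z : V | nrm z < 1}.indicator (fun z => M * nrm (v (x₀ + r • z) - c)) z) :
    |∫ z, f z| ≤ M * U := by
  have h1 : Integrable ({z : V | nrm z < 1}.indicator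
      (fun z => M * nrm (v (x₀ + r • z) - c))) := by
    rw [integrable_indicator_iff meas_ball]
    exact (osc_integrable hv x₀ c r).const_mul M
  rw [← Real.norm_eq_abs]
  refine (norm_integral_le_of_norm_le h1 (Eventually.of_forall hf)).trans ?_
  rw [integral_indicator meas_ball, integral_const_mul]
  exact mul_le_mul_of_nonneg_left hc hM

lemma P_le_one (n : ℕ) (z : V) : P n z ≤ 1 := by
  unfold P
  have h0 := dot_self_nonneg z
  exact pow_le_one₀ (le_max_right _ _) (max_le (by linarith) zero_le_one)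

lemma one_le_dot {z : V} (hz : ¬ nrm z < 1) : 1 ≤ z ⬝ᵥ z := by
  rw [not_lt] at hz
  rw [← nrm_sq]
  exact one_le_pow₀ hz

section

variable {x₀ : V} {G U : ℝ} {ξ : V → V}

/-- The weight in the integration by parts. -/
noncomputable def wt (ξ : V → V) (x₀ : V) (r : ℝ) (l : Fin 3) (z : V) : ℝ :=
  (z ⬝ᵥ ξ x₀) * (ξ (x₀ + r • z) ⬝ᵥ cross z (ξ x₀)) * ξ (x₀ + r • z) l

lemma cross_contDiff (e : V) : ContDiff ℝ 1 (fun z : V => cross z e) := by
  refine contDiff_pi.2 fun i => ?_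
  have cproj : ∀ k : Fin 3, ContDiff ℝ 1 (fun z : V => z k) := fun k =>
    (ContinuousLinearMap.proj (R := ℝ) (φ := fun _ : Fin 3 => ℝ) k).contDiff
  fin_cases i
  · exact ((cproj 1).mul contDiff_const).sub ((cproj 2).mul contDiff_const)
  · exact ((cproj 2).mul contDiff_const).sub ((cproj 0).mul contDiff_const)
  · exact ((cproj 0).mul contDiff_const).sub ((cproj 1).mul contDiff_const)

lemma comp_contDiffAt {ρ r : ℝ} (hξ : ContDiffOn ℝ 1 ξ (Ball x₀ ρ)) {z : V}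
    (hz : x₀ + r • z ∈ Ball x₀ ρ) : ContDiffAt ℝ 1 (fun z : V => ξ (x₀ + r • z)) z := by
  have h1 : ContDiffAt ℝ 1 ξ (x₀ + r • z) := hξ.contDiffAt ((isOpen_Ball x₀ ρ).mem_nhds hz)
  have h2 : ContDiffAt ℝ 1 (fun z : V => x₀ + r • z) z := by fun_prop
  exact ContDiffAt.comp z h1 h2

lemma wt_contDiffAt {ρ r : ℝ} (hξ : ContDiffOn ℝ 1 ξ (Ball x₀ ρ)) {z : V}
    (hz : x₀ + r • z ∈ Ball x₀ ρ) (l : Fin 3) : ContDiffAt ℝ 1 (wt ξ x₀ r l) z := by
  have h1 := comp_contDiffAt (r := r) hξ hz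
  have h2 : ∀ i, ContDiffAt ℝ 1 (fun z : V => ξ (x₀ + r • z) i) z := fun i => contDiffAt_pi.1 h1 i
  have h3 : ∀ i, ContDiffAt ℝ 1 (fun z : V => cross z (ξ x₀) i) z := fun i =>
    (contDiff_pi.1 (cross_contDiff (ξ x₀)) i).contDiffAt
  have cproj : ∀ k : Fin 3, ContDiff ℝ 1 (fun z : V => z k) := fun k =>
    (ContinuousLinearMap.proj (R := ℝ) (φ := fun _ : Fin 3 => ℝ) k).contDiff
  have h4 : ContDiffAt ℝ 1 (fun z : V => z ⬝ᵥ ξ x₀) z := by
    simp only [dotProduct]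
    exact (ContDiff.sum fun i _ => (cproj i).mul contDiff_const).contDiffAt
  have h5 : ContDiffAt ℝ 1 (fun z : V => ξ (x₀ + r • z) ⬝ᵥ cross z (ξ x₀)) z := by
    simp only [dotProduct]
    exact ContDiffAt.sum fun i _ => (h2 i).mul (h3 i)
  exact (h4.mul h5).mul (h2 l)

/-- The derivative of the weight. -/
lemma wt_fderiv {ρ r : ℝ} (hξ : ContDiffOn ℝ 1 ξ (Ball x₀ ρ)) {z : V}
    (hz : x₀ + r • z ∈ Ball x₀ ρ) (l : Fin 3) (w : V) :
    fderiv ℝ (wt ξ x₀ r l) z w =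
      (w ⬝ᵥ ξ x₀) * (ξ (x₀ + r • z) ⬝ᵥ cross z (ξ x₀)) * ξ (x₀ + r • z) l
      + (z ⬝ᵥ ξ x₀) * (r * (fderiv ℝ ξ (x₀ + r • z) w ⬝ᵥ cross z (ξ x₀))
          + ξ (x₀ + r • z) ⬝ᵥ cross w (ξ x₀)) * ξ (x₀ + r • z) l
      + (z ⬝ᵥ ξ x₀) * (ξ (x₀ + r • z) ⬝ᵥ cross z (ξ x₀)) * (r * fderiv ℝ ξ (x₀ + r • z) w l) := by
  set e := ξ x₀ with he
  have h1 : HasFDerivAt (fun z : V => x₀ + r • z) (r • ContinuousLinearMap.id ℝ V) z :=
    ((hasFDerivAt_id (𝕜 := ℝ) z).const_smul r).const_add x₀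
  have h2 : HasFDerivAt ξ (fderiv ℝ ξ (x₀ + r • z)) (x₀ + r • z) :=
    ((hξ.differentiableOn one_ne_zero).differentiableAt
      ((isOpen_Ball x₀ ρ).mem_nhds hz)).hasFDerivAt
  have h3 : HasFDerivAt (fun z : V => ξ (x₀ + r • z))
      ((fderiv ℝ ξ (x₀ + r • z)).comp (r • ContinuousLinearMap.id ℝ V)) z := h2.comp z h1
  have h4 := hasFDerivAt_pi'.1 h3
  have hp : ∀ k : Fin 3, HasFDerivAt (fun z : V => z k)
      (ContinuousLinearMap.proj k : V →L[ℝ] ℝ) z := fun k =>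
    (ContinuousLinearMap.proj k : V →L[ℝ] ℝ).hasFDerivAt
  have h5 : HasFDerivAt (fun z : V => z 0 * e 0 + z 1 * e 1 + z 2 * e 2) _ z :=
    (((hp 0).mul_const (e 0)).add ((hp 1).mul_const (e 1))).add ((hp 2).mul_const (e 2))
  have h6 : HasFDerivAt (fun z : V => ξ (x₀ + r • z) 0 * (z 1 * e 2 - z 2 * e 1)
      + ξ (x₀ + r • z) 1 * (z 2 * e 0 - z 0 * e 2)
      + ξ (x₀ + r • z) 2 * (z 0 * e 1 - z 1 * e 0)) _ z :=
    (((h4 0).mul (((hp 1).mul_const (e 2)).sub ((hp 2).mul_const (e 1)))).add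
      ((h4 1).mul (((hp 2).mul_const (e 0)).sub ((hp 0).mul_const (e 2))))).add
      ((h4 2).mul (((hp 0).mul_const (e 1)).sub ((hp 1).mul_const (e 0))))
  have h7 := (h5.mul h6).mul (h4 l)
  have h8 : wt ξ x₀ r l = fun z : V => (z 0 * e 0 + z 1 * e 1 + z 2 * e 2)
      * (ξ (x₀ + r • z) 0 * (z 1 * e 2 - z 2 * e 1)
      + ξ (x₀ + r • z) 1 * (z 2 * e 0 - z 0 * e 2)
      + ξ (x₀ + r • z) 2 * (z 0 * e 1 - z 1 * e 0)) * ξ (x₀ + r • z) l := by
    funext z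
    simp only [wt, dotProduct, cross, Fin.sum_univ_three, Matrix.cons_val_zero,
      Matrix.cons_val_one, Matrix.cons_val, ← he]
  rw [h8]
  have h9 := h7.fderiv
  simp only [Pi.mul_def] at h9
  rw [h9]
  simp [dotProduct, cross, Fin.sum_univ_three]
  ring

end

end Pool.Agent.V11287.Eul
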