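import Pool.Agent.V11287.Eul.Lin

/-!
# The stretching rate of a vorticity which is parallel to a regular line field: the estimate
-/

open MeasureTheory Set Filter
open scoped ENNReal NNReal Topology

namespace Pool.Agent.V11287.Eul

open Pool.Agent.H708R2.EulerSign Pool.Agent.H708R2.EulerTypeI Pool.Agent.W786.Dir

variable {v : V → V} {x₀ : V} {G U : ℝ} {ξ : V → V}

/-- The weight with the cut-off. -/
noncomputable def bw (ξ : V → V) (x₀ : V) (r : ℝ) (l : Fin 3) (z : V) : ℝ := P 2 z * wt ξ x₀ r l z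

lemma bw_zero_of (ξ : V → V) (x₀ : V) (r : ℝ) (l : Fin 3) {z : V} (hz : 1 < z ⬝ᵥ z) :
    bw ξ x₀ r l =ᶠ[𝓝 z] fun _ => 0 := by
  have hc : Continuous fun z : V => z ⬝ᵥ z := by simp only [dotProduct]; fun_prop
  filter_upwards [(isOpen_lt continuous_const hc).mem_nhds hz] with y hy
  unfold bw
  rw [show P 2 y = 0 from P_zero_of (le_of_lt hy), zero_mul]

lemma bw_contDiff (hξ : ContDiffOn ℝ 1 ξ (Ball x₀ (1 / G))) {r : ℝ} (hr : 0 < r)
    (hrG : r < 1 / G) (l : Fin 3) : ContDiff ℝ 1 (bw ξ x₀ r l) := by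
  rw [contDiff_iff_contDiffAt]
  intro z
  rcases le_or_gt (z ⬝ᵥ z) 1 with hz | hz
  · exact (P_contDiff 0).contDiffAt.mul
      (wt_contDiffAt hξ (mem_ball_of (x₀ := x₀) hr hrG hz).1 l)
  · exact contDiffAt_const.congr_of_eventuallyEq (bw_zero_of ξ x₀ r l hz)

lemma bw_supp (ξ : V → V) (x₀ : V) (r : ℝ) (l : Fin 3) : HasCompactSupport (bw ξ x₀ r l) :=
  (P_supp 1).mul_right

/-- The bound of the product `ξ(y) · (z × ξ(x₀))`. -/
lemma mis_bound (hG : 0 < G) (h : LineOn v x₀ G ξ) {r : ℝ} (hr : 0 < r) (hrG : r < 1 / G) {z w : V}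
    (hz : z ⬝ᵥ z ≤ 1) (hw : nrm w ≤ 1) : |ξ (x₀ + r • z) ⬝ᵥ cross w (ξ x₀)| ≤ G * r := by
  have hc : x₀ ∈ Ball x₀ (1 / G) := center_mem (by positivity)
  have he : nrm (ξ x₀) ≤ 1 := (h.2 _ hc).2.1
  obtain ⟨hy, hyr⟩ := mem_ball_of (x₀ := x₀) hr hrG hz
  have h3 := lip_on h.1 (fun y hy => (h.2 y hy).2.2) hy (cross w (ξ x₀))
  rw [cross_orth, sub_zero] at h3
  have b2 : nrm (cross w (ξ x₀)) ≤ 1 :=
    (nrm_cross_le _ _).trans (mul_le_one₀ hw (nrm_nonneg _) he)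
  refine h3.trans ?_
  have := nrm_nonneg (x₀ + r • z - x₀)
  calc nrm (cross w (ξ x₀)) * (G * nrm (x₀ + r • z - x₀)) ≤ 1 * (G * r) := by gcongr
    _ = G * r := one_mul _

/-- The bound of the derivative of the weight. -/
lemma bw_bound (hG : 0 < G) (h : LineOn v x₀ G ξ) {r : ℝ} (hr : 0 < r) (hrG : r < 1 / G)
    (l k : Fin 3) (z : V) :
    |fderiv ℝ (bw ξ x₀ r l) z (Pi.single k 1)| ≤ 8 * (G * r) * P 1 z := by
  have hrG' : r * G ≤ 1 := by rw [lt_div_iff₀ hG] at hrG; exact hrG.le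
  have hGr : 0 ≤ G * r := by positivity
  rcases le_or_gt (z ⬝ᵥ z) 1 with hz | hz
  · obtain ⟨hy, hyr⟩ := mem_ball_of (x₀ := x₀) hr hrG hz
    have hc : x₀ ∈ Ball x₀ (1 / G) := center_mem (by positivity)
    have he : nrm (ξ x₀) ≤ 1 := (h.2 _ hc).2.1
    obtain ⟨-, hb2, hb3⟩ := h.2 _ hy
    have hz1 := nrm_le_one hz
    have hk : nrm (Pi.single k 1 : V) ≤ 1 := (nrm_single k).le
    have h1 : fderiv ℝ (bw ξ x₀ r l) z = P 2 z • fderiv ℝ (wt ξ x₀ r l) z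
        + wt ξ x₀ r l z • fderiv ℝ (P 2) z :=
      fderiv_fun_mul (((P_contDiff 0).differentiable one_ne_zero) z)
        ((wt_contDiffAt h.1 hy l).differentiableAt one_ne_zero)
    rw [h1]
    simp only [add_apply, FunLike.coe_smul, Pi.smul_apply, smul_eq_mul, wt_fderiv h.1 hy]
    rw [show P 2 = P (0 + 2) from rfl, P_fderiv 0 z]
    set w : V := Pi.single k 1 with hw
    set y := x₀ + r • z with hy'
    have q1 : |w ⬝ᵥ ξ x₀| ≤ 1 := (dot_le _ _).trans (mul_le_one₀ hk (nrm_nonneg _) he)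
    have q2 : |ξ y ⬝ᵥ cross z (ξ x₀)| ≤ G * r := mis_bound hG h hr hrG hz hz1
    have q3 : |ξ y l| ≤ 1 := (abs_le_nrm _ l).trans hb2
    have q4 : |z ⬝ᵥ ξ x₀| ≤ 1 := (dot_le _ _).trans (mul_le_one₀ hz1 (nrm_nonneg _) he)
    have q5 : |fderiv ℝ ξ y w ⬝ᵥ cross z (ξ x₀)| ≤ G := by
      refine (dot_le _ _).trans ?_
      have a1 : nrm (fderiv ℝ ξ y w) ≤ G := (hb3 w).trans (mul_le_of_le_one_right hG.le hk)
      have a2 : nrm (cross z (ξ x₀)) ≤ 1 :=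
        (nrm_cross_le _ _).trans (mul_le_one₀ hz1 (nrm_nonneg _) he)
      calc nrm (fderiv ℝ ξ y w) * nrm (cross z (ξ x₀)) ≤ G * 1 := by
            have := nrm_nonneg (cross z (ξ x₀))
            gcongr
        _ = G := mul_one G
    have q6 : |ξ y ⬝ᵥ cross w (ξ x₀)| ≤ G * r := mis_bound hG h hr hrG hz hk
    have q7 : |fderiv ℝ ξ y w l| ≤ G :=
      (abs_le_nrm _ l).trans ((hb3 w).trans (mul_le_of_le_one_right hG.le hk))
    have q8 : |z ⬝ᵥ w| ≤ 1 := (dot_le _ _).trans (mul_le_one₀ hz1 (nrm_nonneg _) hk)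
    have hp1 := P_nonneg 1 z
    have hp2 := P_nonneg 2 z
    have hp21 : P 2 z ≤ P 1 z := P_le z
    have s1 : |(w ⬝ᵥ ξ x₀) * (ξ y ⬝ᵥ cross z (ξ x₀)) * ξ y l| ≤ G * r := by
      rw [abs_mul, abs_mul]
      calc |w ⬝ᵥ ξ x₀| * |ξ y ⬝ᵥ cross z (ξ x₀)| * |ξ y l| ≤ 1 * (G * r) * 1 := by gcongr
        _ = G * r := by ring
    have s2 : |(z ⬝ᵥ ξ x₀) * (r * (fderiv ℝ ξ y w ⬝ᵥ cross z (ξ x₀))
          + ξ y ⬝ᵥ cross w (ξ x₀)) * ξ y l| ≤ 2 * (G * r) := by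
      rw [abs_mul, abs_mul]
      have a1 : |r * (fderiv ℝ ξ y w ⬝ᵥ cross z (ξ x₀)) + ξ y ⬝ᵥ cross w (ξ x₀)|
          ≤ r * G + G * r := by
        refine (abs_add_le _ _).trans (add_le_add ?_ q6)
        rw [abs_mul, abs_of_pos hr]
        gcongr
      calc |z ⬝ᵥ ξ x₀| * |r * (fderiv ℝ ξ y w ⬝ᵥ cross z (ξ x₀)) + ξ y ⬝ᵥ cross w (ξ x₀)|
            * |ξ y l| ≤ 1 * (r * G + G * r) * 1 := by gcongr
        _ = 2 * (G * r) := by ring
    have s3 : |(z ⬝ᵥ ξ x₀) * (ξ y ⬝ᵥ cross z (ξ x₀)) * (r * fderiv ℝ ξ y w l)| ≤ G * r := by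
      rw [abs_mul, abs_mul, abs_mul, abs_of_pos hr]
      calc |z ⬝ᵥ ξ x₀| * |ξ y ⬝ᵥ cross z (ξ x₀)| * (r * |fderiv ℝ ξ y w l|)
          ≤ 1 * (G * r) * (r * G) := by gcongr
        _ ≤ 1 * (G * r) * 1 := by gcongr
        _ = G * r := by ring
    have s4 : |wt ξ x₀ r l z| ≤ G * r := by
      unfold wt
      rw [abs_mul, abs_mul]
      calc |z ⬝ᵥ ξ x₀| * |ξ y ⬝ᵥ cross z (ξ x₀)| * |ξ y l| ≤ 1 * (G * r) * 1 := by gcongr
        _ = G * r := by ring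
    have t1 : |P (0 + 2) z * ((w ⬝ᵥ ξ x₀) * (ξ y ⬝ᵥ cross z (ξ x₀)) * ξ y l
        + (z ⬝ᵥ ξ x₀) * (r * (fderiv ℝ ξ y w ⬝ᵥ cross z (ξ x₀)) + ξ y ⬝ᵥ cross w (ξ x₀)) * ξ y l
        + (z ⬝ᵥ ξ x₀) * (ξ y ⬝ᵥ cross z (ξ x₀)) * (r * fderiv ℝ ξ y w l))|
        ≤ P 1 z * (4 * (G * r)) := by
      rw [abs_mul, abs_of_nonneg (P_nonneg _ z)]
      have a1 := abs_add_le ((w ⬝ᵥ ξ x₀) * (ξ y ⬝ᵥ cross z (ξ x₀)) * ξ y l
        + (z ⬝ᵥ ξ x₀) * (r * (fderiv ℝ ξ y w ⬝ᵥ cross z (ξ x₀)) + ξ y ⬝ᵥ cross w (ξ x₀)) * ξ y l)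
        ((z ⬝ᵥ ξ x₀) * (ξ y ⬝ᵥ cross z (ξ x₀)) * (r * fderiv ℝ ξ y w l))
      have a2 := abs_add_le ((w ⬝ᵥ ξ x₀) * (ξ y ⬝ᵥ cross z (ξ x₀)) * ξ y l)
        ((z ⬝ᵥ ξ x₀) * (r * (fderiv ℝ ξ y w ⬝ᵥ cross z (ξ x₀)) + ξ y ⬝ᵥ cross w (ξ x₀)) * ξ y l)
      exact mul_le_mul hp21 (by linarith) (abs_nonneg _) hp1
    have t2 : |wt ξ x₀ r l z * (-2 * (((0 : ℕ) : ℝ) + 2) * P (0 + 1) z * (z ⬝ᵥ w))|
        ≤ (G * r) * (4 * P 1 z) := by
      rw [abs_mul, abs_mul]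
      have e : |-2 * (((0 : ℕ) : ℝ) + 2) * P (0 + 1) z| = 4 * P 1 z := by
        rw [abs_mul, abs_of_nonneg (P_nonneg _ z)]
        norm_num
      rw [e]
      calc |wt ξ x₀ r l z| * (4 * P 1 z * |z ⬝ᵥ w|)
          ≤ (G * r) * (4 * P 1 z * 1) := by gcongr
        _ = (G * r) * (4 * P 1 z) := by ring
    refine (abs_add_le _ _).trans ?_
    linarith
  · rw [(bw_zero_of ξ x₀ r l hz).fderiv_eq]
    have := P_nonneg 1 z
    simp only [fderiv_fun_const, Pi.zero_apply, zero_apply, abs_zero]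
    positivity

/-- The bound of the integral in the formula for the derivative of the averages. -/
lemma ker_bound (hv : ContDiff ℝ 2 v) (hG : 0 < G) (h : LineOn v x₀ G ξ) {r : ℝ} (hr : 0 < r)
    (hrG : r < 1 / G) (hU : OscLE v x₀ r U) :
    |∫ z, (z ⬝ᵥ ξ x₀) * P 2 z * (vort v (x₀ + r • z) ⬝ᵥ cross z (ξ x₀))| ≤ 48 * G * U := by
  obtain ⟨c, hc⟩ := hU
  set δ : Fin 3 → V → ℝ := fun j z => v (x₀ + r • z) j - c j with hδ
  have hvj : ∀ j, ContDiff ℝ 1 fun y => v y j := fun j =>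
    (contDiff_pi.1 hv j).of_le (by norm_num)
  have cb : ∀ l, ContDiff ℝ 1 (bw ξ x₀ r l) := fun l => bw_contDiff h.1 hr hrG l
  have sb : ∀ l, HasCompactSupport (bw ξ x₀ r l) := fun l => bw_supp ξ x₀ r l
  have cδ : ∀ j, ContDiff ℝ 1 (δ j) := fun j => (comp_aff (hvj j) x₀ r).sub contDiff_const
  have dδ : ∀ j k z, fderiv ℝ (δ j) z (Pi.single k 1) = r * grad v (x₀ + r • z) j k := by
    intro j k z
    have h1 : fderiv ℝ (δ j) z = fderiv ℝ (fun z => v (x₀ + r • z) j) z := fderiv_sub_const _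
    rw [h1, fderiv_comp_aff (S := fun y => v y j) (hvj j), smul_eq_mul]
    congr 1
    have h2 : HasFDerivAt v (fderiv ℝ v (x₀ + r • z)) (x₀ + r • z) :=
      ((hv.differentiable two_ne_zero) _).hasFDerivAt
    have h3 := (hasFDerivAt_pi'.1 h2 j).fderiv
    rw [h3]
    rfl
  have hGr : 0 ≤ G * r := by positivity
  have T : ∀ l k j, |∫ z, bw ξ x₀ r l z * fderiv ℝ (δ j) z (Pi.single k 1)|
      ≤ 8 * (G * r) * U := by
    intro l k j
    rw [ibp (cb l) (sb l) (cδ j), abs_neg]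
    refine osc_bound hv.continuous (by positivity) hc fun z => ?_
    rw [abs_mul]
    have h1 := bw_bound hG h hr hrG l k z
    by_cases hz : nrm z < 1
    · rw [indicator_of_mem (show z ∈ {z : V | nrm z < 1} from hz)]
      have h2 : |δ j z| ≤ nrm (v (x₀ + r • z) - c) := abs_le_nrm (v (x₀ + r • z) - c) j
      have h3 : |fderiv ℝ (bw ξ x₀ r l) z (Pi.single k 1)| ≤ 8 * (G * r) :=
        h1.trans (mul_le_of_le_one_right (by positivity) (P_le_one 1 z))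
      gcongr
    · rw [indicator_of_notMem (show z ∉ {z : V | nrm z < 1} from hz)]
      have e1 : P 1 z = 0 := P_zero_of (one_le_dot hz)
      rw [e1, mul_zero] at h1
      rw [le_antisymm h1 (abs_nonneg _), zero_mul]
  have cfd : ∀ l k j, Integrable fun z => bw ξ x₀ r l z * fderiv ℝ (δ j) z (Pi.single k 1) := by
    intro l k j
    exact ((cb l).continuous.mul (((cδ j).continuous_fderiv one_ne_zero).clm_apply
      continuous_const)).integrable_of_hasCompactSupport (sb l).mul_right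
  have key : r * ∫ z, (z ⬝ᵥ ξ x₀) * P 2 z * (vort v (x₀ + r • z) ⬝ᵥ cross z (ξ x₀))
      = (∫ z, bw ξ x₀ r 0 z * fderiv ℝ (δ 2) z (Pi.single 1 1))
        - (∫ z, bw ξ x₀ r 0 z * fderiv ℝ (δ 1) z (Pi.single 2 1))
        + ((∫ z, bw ξ x₀ r 1 z * fderiv ℝ (δ 0) z (Pi.single 2 1))
        - (∫ z, bw ξ x₀ r 1 z * fderiv ℝ (δ 2) z (Pi.single 0 1)))
        + ((∫ z, bw ξ x₀ r 2 z * fderiv ℝ (δ 1) z (Pi.single 0 1))
        - (∫ z, bw ξ x₀ r 2 z * fderiv ℝ (δ 0) z (Pi.single 1 1))) := by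
    have s0 : Integrable fun z => bw ξ x₀ r 0 z * fderiv ℝ (δ 2) z (Pi.single 1 1)
        - bw ξ x₀ r 0 z * fderiv ℝ (δ 1) z (Pi.single 2 1) := (cfd 0 1 2).sub (cfd 0 2 1)
    have s1 : Integrable fun z => bw ξ x₀ r 1 z * fderiv ℝ (δ 0) z (Pi.single 2 1)
        - bw ξ x₀ r 1 z * fderiv ℝ (δ 2) z (Pi.single 0 1) := (cfd 1 2 0).sub (cfd 1 0 2)
    have s2 : Integrable fun z => bw ξ x₀ r 2 z * fderiv ℝ (δ 1) z (Pi.single 0 1)
        - bw ξ x₀ r 2 z * fderiv ℝ (δ 0) z (Pi.single 1 1) := (cfd 2 0 1).sub (cfd 2 1 0)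
    have s01 : Integrable fun z => (bw ξ x₀ r 0 z * fderiv ℝ (δ 2) z (Pi.single 1 1)
        - bw ξ x₀ r 0 z * fderiv ℝ (δ 1) z (Pi.single 2 1))
        + (bw ξ x₀ r 1 z * fderiv ℝ (δ 0) z (Pi.single 2 1)
        - bw ξ x₀ r 1 z * fderiv ℝ (δ 2) z (Pi.single 0 1)) := s0.add s1
    rw [← integral_sub (cfd 0 1 2) (cfd 0 2 1), ← integral_sub (cfd 1 2 0) (cfd 1 0 2),
      ← integral_sub (cfd 2 0 1) (cfd 2 1 0), ← integral_add s0 s1, ← integral_add s01 s2,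
      ← integral_const_mul]
    refine integral_congr_ae (Eventually.of_forall fun z => ?_)
    simp only [dδ]
    rcases le_or_gt (z ⬝ᵥ z) 1 with hz | hz
    · obtain ⟨hy, -⟩ := mem_ball_of (x₀ := x₀) hr hrG hz
      obtain ⟨hb1, -, -⟩ := h.2 _ hy
      set y := x₀ + r • z with hy'
      have hω : vort v y ⬝ᵥ cross z (ξ x₀) = (vort v y ⬝ᵥ ξ y) * (ξ y ⬝ᵥ cross z (ξ x₀)) := by
        conv_lhs => rw [hb1, smul_dotProduct, smul_eq_mul]
      rw [hω]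
      simp only [bw, wt, ← hy']
      generalize ξ y ⬝ᵥ cross z (ξ x₀) = q
      generalize z ⬝ᵥ ξ x₀ = q'
      simp only [vort, dotProduct, Fin.sum_univ_three, Matrix.cons_val_zero,
        Matrix.cons_val_one, Matrix.cons_val]
      ring
    · have e2 : P 2 z = 0 := P_zero_of hz.le
      simp only [bw, e2]
      ring
  have t1 := abs_le.1 (T 0 1 2)
  have t2 := abs_le.1 (T 0 2 1)
  have t3 := abs_le.1 (T 1 2 0)
  have t4 := abs_le.1 (T 1 0 2)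
  have t5 := abs_le.1 (T 2 0 1)
  have t6 := abs_le.1 (T 2 1 0)
  have hfin : |r * ∫ z, (z ⬝ᵥ ξ x₀) * P 2 z * (vort v (x₀ + r • z) ⬝ᵥ cross z (ξ x₀))|
      ≤ r * (48 * G * U) := by
    rw [key, abs_le]
    constructor <;> linarith [t1.1, t1.2, t2.1, t2.2, t3.1, t3.2, t4.1, t4.2, t5.1, t5.2, t6.1, t6.2]
  rw [abs_mul, abs_of_pos hr] at hfin
  exact le_of_mul_le_mul_left hfin hr

/-- The bound of the same integral by the maximum of the vorticity. -/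
lemma near_bound (hv : ContDiff ℝ 2 v) (hG : 0 < G) (h : LineOn v x₀ G ξ) {r : ℝ} (hr : 0 < r)
    (hrG : r < 1 / G) {Ω : ℝ} (hΩ : ∀ y ∈ Ball x₀ (1 / G), nrm (vort v y) ≤ Ω) :
    |∫ z, (z ⬝ᵥ ξ x₀) * P 2 z * (vort v (x₀ + r • z) ⬝ᵥ cross z (ξ x₀))|
      ≤ (G * r) * (Ω * ∫ z, P 2 z) := by
  have hc : x₀ ∈ Ball x₀ (1 / G) := center_mem (by positivity)
  have he : nrm (ξ x₀) ≤ 1 := (h.2 _ hc).2.1
  have hΩ0 : 0 ≤ Ω := (nrm_nonneg _).trans (hΩ _ hc)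
  rw [← integral_const_mul, ← integral_const_mul, ← Real.norm_eq_abs]
  refine norm_integral_le_of_norm_le (((P_integrable 1).const_mul _).const_mul _)
    (Eventually.of_forall fun z => ?_)
  rw [Real.norm_eq_abs]
  rcases le_or_gt (z ⬝ᵥ z) 1 with hz | hz
  · obtain ⟨hy, hyr⟩ := mem_ball_of (x₀ := x₀) hr hrG hz
    obtain ⟨hb1, hb2, -⟩ := h.2 _ hy
    have hz1 := nrm_le_one hz
    have b1 : |z ⬝ᵥ ξ x₀| ≤ 1 := (dot_le _ _).trans (mul_le_one₀ hz1 (nrm_nonneg _) he)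
    have b3 := mis_bound hG h hr hrG hz hz1
    have b4 : |vort v (x₀ + r • z) ⬝ᵥ cross z (ξ x₀)| ≤ Ω * (G * r) := by
      rw [hb1, smul_dotProduct, smul_eq_mul, abs_mul]
      have b5 : |vort v (x₀ + r • z) ⬝ᵥ ξ (x₀ + r • z)| ≤ Ω := by
        refine (dot_le _ _).trans ?_
        have := hΩ _ hy
        have h0 := nrm_nonneg (vort v (x₀ + r • z))
        have h00 := nrm_nonneg (ξ (x₀ + r • z))
        calc nrm (vort v (x₀ + r • z)) * nrm (ξ (x₀ + r • z)) ≤ Ω * 1 := by gcongr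
          _ = Ω := mul_one _
      gcongr
    rw [abs_mul, abs_mul, abs_of_nonneg (P_nonneg 2 z)]
    have hp := P_nonneg 2 z
    calc |z ⬝ᵥ ξ x₀| * P 2 z * |vort v (x₀ + r • z) ⬝ᵥ cross z (ξ x₀)|
        ≤ 1 * P 2 z * (Ω * (G * r)) := by gcongr
      _ = G * r * (Ω * P (1 + 1) z) := by ring
  · have e2 : P 2 z = 0 := P_zero_of hz.le
    rw [e2]
    simp

/-- The averages are bounded by the oscillation. -/
lemma avg_osc (hv : ContDiff ℝ 2 v) {e : V} (he : nrm e ≤ 1) {r : ℝ} (hr : 0 < r)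
    (hU : OscLE v x₀ r U) : |∫ z, P 3 z * rate v e (x₀ + r • z)| ≤ 6 * U / r := by
  obtain ⟨c, hc⟩ := hU
  have hvj : ∀ j, ContDiff ℝ 1 fun y => v y j := fun j =>
    (contDiff_pi.1 hv j).of_le (by norm_num)
  set w : V → ℝ := fun y => ∑ j, e j * v y j with hw
  have cw : ContDiff ℝ 1 w := ContDiff.sum fun j _ => contDiff_const.mul (hvj j)
  set δ : V → ℝ := fun z => w (x₀ + r • z) - e ⬝ᵥ c with hδ
  have cδ : ContDiff ℝ 1 δ := (comp_aff cw x₀ r).sub contDiff_const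
  have dδ : ∀ z, fderiv ℝ δ z e = r * rate v e (x₀ + r • z) := by
    intro z
    have h1 : fderiv ℝ δ z = fderiv ℝ (fun z => w (x₀ + r • z)) z := fderiv_sub_const _
    rw [h1, fderiv_comp_aff cw, smul_eq_mul]
    congr 1
    have h2 : HasFDerivAt v (fderiv ℝ v (x₀ + r • z)) (x₀ + r • z) :=
      ((hv.differentiable two_ne_zero) _).hasFDerivAt
    have h3 : HasFDerivAt w (∑ j, e j • ((ContinuousLinearMap.proj j : V →L[ℝ] ℝ) ∘L
        fderiv ℝ v (x₀ + r • z))) (x₀ + r • z) :=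
      HasFDerivAt.fun_sum fun j _ => (hasFDerivAt_pi'.1 h2 j).const_mul (e j)
    rw [h3.fderiv]
    have h4 : fderiv ℝ v (x₀ + r • z) e = ∑ k, e k • fderiv ℝ v (x₀ + r • z) (Pi.single k 1) := by
      conv_lhs => rw [show e = ∑ k, e k • (Pi.single k 1 : V) by
        ext i; simp [Finset.sum_apply, Pi.single_apply]]
      rw [map_sum]
      simp
    simp only [FunLike.coe_sum, Finset.sum_apply, FunLike.coe_smul, Pi.smul_apply,
      ContinuousLinearMap.comp_apply, smul_eq_mul, h4, rate, dotProduct, Matrix.mulVec, grad,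
      Matrix.of_apply]
    refine Finset.sum_congr rfl fun j _ => ?_
    simp [mul_comm]
  have h1 : r * ∫ z, P 3 z * rate v e (x₀ + r • z) = -∫ z, fderiv ℝ (P 3) z e * δ z := by
    rw [← ibp (P_contDiff 1) (P_supp 2) cδ e, ← integral_const_mul]
    refine integral_congr_ae (Eventually.of_forall fun z => ?_)
    simp only [dδ]
    ring
  have h2 : |∫ z, fderiv ℝ (P 3) z e * δ z| ≤ 6 * U := by
    refine osc_bound hv.continuous (by norm_num) hc fun z => ?_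
    rw [abs_mul, show P 3 = P (1 + 2) from rfl, P_fderiv 1 z e]
    by_cases hz : nrm z < 1
    · rw [indicator_of_mem (show z ∈ {z : V | nrm z < 1} from hz)]
      have b1 : |z ⬝ᵥ e| ≤ 1 := (dot_le _ _).trans (mul_le_one₀ hz.le (nrm_nonneg _) he)
      have b2 : |δ z| ≤ nrm (v (x₀ + r • z) - c) := by
        have e1 : δ z = e ⬝ᵥ (v (x₀ + r • z) - c) := by
          simp only [hδ, hw, dotProduct, Pi.sub_apply, Fin.sum_univ_three]
          ring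
        rw [e1]
        refine (dot_le _ _).trans ?_
        calc nrm e * nrm (v (x₀ + r • z) - c) ≤ 1 * nrm (v (x₀ + r • z) - c) := by
              have := nrm_nonneg (v (x₀ + r • z) - c)
              gcongr
          _ = nrm (v (x₀ + r • z) - c) := one_mul _
      have e3 : |-2 * (((1 : ℕ) : ℝ) + 2) * P (1 + 1) z * (z ⬝ᵥ e)| = 6 * P 2 z * |z ⬝ᵥ e| := by
        rw [abs_mul, abs_mul, abs_of_nonneg (P_nonneg (1 + 1) z)]
        norm_num
      rw [e3]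
      have hp := P_nonneg 2 z
      have hp1 := P_le_one 2 z
      calc 6 * P 2 z * |z ⬝ᵥ e| * |δ z| ≤ 6 * 1 * 1 * nrm (v (x₀ + r • z) - c) := by gcongr
        _ = 6 * nrm (v (x₀ + r • z) - c) := by ring
    · rw [indicator_of_notMem (show z ∉ {z : V | nrm z < 1} from hz)]
      have e3 : P (1 + 1) z = 0 := P_zero_of (one_le_dot hz)
      rw [e3]
      simp
  have h3 : |∫ z, P 3 z * rate v e (x₀ + r • z)| * r ≤ 6 * U := by
    rw [← abs_of_pos hr, ← abs_mul, mul_comm, abs_of_pos hr, h1, abs_neg]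
    exact h2
  rwa [← le_div_iff₀ hr] at h3

/-- The constant of the estimate. -/
noncomputable def Cl : ℝ := (288 + 6 * ∫ z, P 2 z) / ∫ z, P 3 z

lemma Cl_pos : 0 < Cl := by
  have h2 : 0 < ∫ z, P 2 z := P_int_pos 1
  have h3 : 0 < ∫ z, P 3 z := P_int_pos 2
  unfold Cl
  positivity

/-- The stretching rate of a vorticity which is parallel to a regular line field. -/
theorem line_rate (hv : ContDiff ℝ 2 v) (hdiv : ∀ x, divergence v x = 0) (hG : 0 < G)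
    (h : LineOn v x₀ G ξ) (hU : ∀ r ∈ Ioc 0 (1 / G), OscLE v x₀ r U) {Ω : ℝ}
    (hΩ : ∀ y ∈ Ball x₀ (1 / G), nrm (vort v y) ≤ Ω) {δ : ℝ} (hδ : 0 < δ) (hδ1 : δ ≤ 1) :
    |rate v (ξ x₀) x₀| ≤ Cl * (U * G * (1 + Real.log (1 / δ)) + δ * Ω) := by
  have c2 : 0 < ∫ z, P 2 z := P_int_pos 1
  have c3 : 0 < ∫ z, P 3 z := P_int_pos 2
  set I2 := ∫ z, P 2 z with hI2
  set I3 := ∫ z, P 3 z with hI3
  set e := ξ x₀ with he'
  set ρ := 1 / G with hρ'
  have hρ : 0 < ρ := by positivity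
  have hc0 : x₀ ∈ Ball x₀ ρ := center_mem hρ
  have he : nrm e ≤ 1 := (h.2 _ hc0).2.1
  have hU0 : 0 ≤ U := by
    obtain ⟨c, hc⟩ := hU ρ ⟨hρ, le_rfl⟩
    exact (integral_nonneg fun z => nrm_nonneg _).trans hc
  have hΩ0 : 0 ≤ Ω := (nrm_nonneg _).trans (hΩ _ hc0)
  set A : ℝ → ℝ := fun r => ∫ z, P 3 z * rate v e (x₀ + r • z) with hA
  set A' : ℝ → ℝ := fun r => ∫ z, P 3 z * fderiv ℝ (rate v e) (x₀ + r • z) z with hA'
  have hAd : ∀ r, HasDerivAt A (A' r) r := fun r =>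
    param_deriv (P_cont 3) (P_supp 2) (rate_contDiff hv e) x₀ r
  have hA0 : A 0 = I3 * rate v e x₀ := by
    simp only [hA, zero_smul, add_zero]
    rw [integral_mul_const]
  have form : ∀ r, r * A' r
      = 6 * ∫ z, (z ⬝ᵥ e) * P 2 z * (vort v (x₀ + r • z) ⬝ᵥ cross z e) := fun r =>
    rate_formula hv hdiv e x₀ r
  have near : ∀ r, 0 < r → r < ρ → |A' r| ≤ 6 * G * (Ω * I2) := by
    intro r hr hrρ
    have h1 := near_bound hv hG h hr hrρ hΩ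
    have h2 : |r * A' r| ≤ r * (6 * G * (Ω * I2)) := by
      rw [form, abs_mul, abs_of_pos (by norm_num : (0 : ℝ) < 6)]
      calc 6 * |∫ z, (z ⬝ᵥ e) * P 2 z * (vort v (x₀ + r • z) ⬝ᵥ cross z e)|
          ≤ 6 * ((G * r) * (Ω * I2)) := by gcongr
        _ = _ := by ring
    rw [abs_mul, abs_of_pos hr] at h2
    exact le_of_mul_le_mul_left h2 hr
  have far : ∀ r, 0 < r → r < ρ → r * |A' r| ≤ 288 * G * U := by
    intro r hr hrρ
    have h1 := ker_bound hv hG h hr hrρ (hU r ⟨hr, hrρ.le⟩)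
    have h2 : |r * A' r| ≤ 288 * G * U := by
      rw [form, abs_mul, abs_of_pos (by norm_num : (0 : ℝ) < 6)]
      calc 6 * |∫ z, (z ⬝ᵥ e) * P 2 z * (vort v (x₀ + r • z) ⬝ᵥ cross z e)|
          ≤ 6 * (48 * G * U) := by gcongr
        _ = _ := by ring
    rwa [abs_mul, abs_of_pos hr] at h2
  set r₀ := δ * ρ with hr₀'
  have hr₀ : 0 < r₀ := by positivity
  have hr₀ρ : r₀ ≤ ρ := mul_le_of_le_one_left hρ.le hδ1
  -- from `0` to `r₀`
  have s1 : |A r₀ - A 0| ≤ 6 * I2 * (δ * Ω) := by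
    obtain ⟨c, hc, hc2⟩ := exists_hasDerivAt_eq_slope A A' hr₀
      (fun r _ => (hAd r).continuousAt.continuousWithinAt) (fun r _ => hAd r)
    have h1 := near c hc.1 (hc.2.trans_le hr₀ρ)
    rw [hc2, sub_zero, abs_div, abs_of_pos hr₀, div_le_iff₀ hr₀] at h1
    refine h1.trans (le_of_eq ?_)
    rw [hr₀', hρ']
    field_simp
  -- from `r₀` to `ρ`
  have s2 : |A ρ - A r₀| ≤ 288 * (U * G * Real.log (1 / δ)) := by
    rcases hr₀ρ.lt_or_eq with hlt | heq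
    · obtain ⟨c, hc, hc2⟩ := exists_ratio_hasDerivAt_eq_ratio_slope A A' hlt
        (fun r _ => (hAd r).continuousAt.continuousWithinAt) (fun r _ => hAd r)
        Real.log (fun r => r⁻¹)
        (fun r hr => (Real.hasDerivAt_log (hr₀.trans_le hr.1).ne').continuousAt.continuousWithinAt)
        (fun r hr => Real.hasDerivAt_log (hr₀.trans hr.1).ne')
      have hcpos : 0 < c := hr₀.trans hc.1
      have hlog : Real.log ρ - Real.log r₀ = Real.log (1 / δ) := by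
        rw [hr₀', Real.log_mul hδ.ne' hρ.ne', one_div, Real.log_inv]
        ring
      have hlog0 : 0 ≤ Real.log (1 / δ) := Real.log_nonneg (by rw [le_div_iff₀ hδ]; linarith)
      rw [hlog] at hc2
      have h1 : A ρ - A r₀ = Real.log (1 / δ) * (c * A' c) := by
        field_simp at hc2 ⊢
        linarith
      rw [h1, abs_mul, abs_of_nonneg hlog0, abs_mul, abs_of_pos hcpos]
      have h2 := far c hcpos hc.2
      calc Real.log (1 / δ) * (c * |A' c|) ≤ Real.log (1 / δ) * (288 * G * U) := by gcongr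
        _ = _ := by ring
    · have hd1 : δ = 1 := by
        have h1 : δ * ρ = 1 * ρ := by rw [one_mul]; exact heq
        exact mul_right_cancel₀ hρ.ne' h1
      rw [heq, sub_self, abs_zero, hd1]
      simp
  have s3 : |A ρ| ≤ 6 * (U * G) := by
    refine (avg_osc hv he hρ (hU ρ ⟨hρ, le_rfl⟩)).trans (le_of_eq ?_)
    rw [hρ']
    field_simp
  have hlog0 : 0 ≤ Real.log (1 / δ) := Real.log_nonneg (by rw [le_div_iff₀ hδ]; linarith)
  have tot : I3 * |rate v e x₀| ≤ (288 + 6 * I2) * (U * G * (1 + Real.log (1 / δ)) + δ * Ω) := by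
    rw [← abs_of_pos c3, ← abs_mul, ← hA0]
    have h1 : |A 0| ≤ |A ρ| + |A ρ - A r₀| + |A r₀ - A 0| := by
      have := abs_sub_abs_le_abs_sub (A 0) (A ρ)
      have h2 : |A 0 - A ρ| ≤ |A ρ - A r₀| + |A r₀ - A 0| := by
        have e : A 0 - A ρ = -((A ρ - A r₀) + (A r₀ - A 0)) := by ring
        rw [e, abs_neg]
        exact abs_add_le _ _
      linarith
    have hUG : 0 ≤ U * G := by positivity
    have hUGl : 0 ≤ U * G * Real.log (1 / δ) := by positivity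
    have hδΩ : 0 ≤ δ * Ω := by positivity
    nlinarith [mul_nonneg c2.le hUG, mul_nonneg c2.le hUGl]
  unfold Cl
  rw [div_mul_eq_mul_div, le_div_iff₀ c3, mul_comm]
  exact tot

/-- The bound in terms of the vorticity itself. -/
theorem line_stretch (hv : ContDiff ℝ 2 v) (hdiv : ∀ x, divergence v x = 0) (hG : 0 < G)
    (hd : LineDirected v x₀ G U) {Ω : ℝ}
    (hΩ : ∀ y ∈ Ball x₀ (1 / G), nrm (vort v y) ≤ Ω) {δ : ℝ} (hδ : 0 < δ) (hδ1 : δ ≤ 1) :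
    |vort v x₀ ⬝ᵥ (grad v x₀).mulVec (vort v x₀)|
      ≤ Cl * (U * G * (1 + Real.log (1 / δ)) + δ * Ω) * (vort v x₀ ⬝ᵥ vort v x₀) := by
  obtain ⟨ξ, hξ, hU⟩ := hd
  have h1 := line_rate hv hdiv hG hξ hU hΩ hδ hδ1
  have h2 := (hξ.2 _ (center_mem (by positivity))).1
  have h3 : vort v x₀ ⬝ᵥ (grad v x₀).mulVec (vort v x₀)
      = (vort v x₀ ⬝ᵥ vort v x₀) * rate v (ξ x₀) x₀ := by
    have h4 : vort v x₀ ⬝ᵥ vort v x₀ = (vort v x₀ ⬝ᵥ ξ x₀) * (vort v x₀ ⬝ᵥ ξ x₀) := by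
      conv_lhs => rw [h2]
      rw [smul_dotProduct, dotProduct_smul, smul_eq_mul, smul_eq_mul]
      have h5 : (vort v x₀ ⬝ᵥ ξ x₀) * (ξ x₀ ⬝ᵥ ξ x₀) = vort v x₀ ⬝ᵥ ξ x₀ := by
        conv_rhs => rw [h2, smul_dotProduct, smul_eq_mul]
      rw [h5]
    rw [h4]
    set a := vort v x₀ ⬝ᵥ ξ x₀ with ha
    rw [h2, Matrix.mulVec_smul, smul_dotProduct, dotProduct_smul, smul_eq_mul, smul_eq_mul, rate]
    ring
  rw [h3, abs_mul, abs_of_nonneg (dot_self_nonneg _), mul_comm]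
  exact mul_le_mul_of_nonneg_right h1 (dot_self_nonneg _)

end Pool.Agent.V11287.Eul
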