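import Pool.Agent.V11287.Eul.Lin2
import Pool.Agent.V11287.Eul.Osg

/-!
# The continuation criterion for line fields
-/

open MeasureTheory Set Filter
open scoped ENNReal NNReal Topology

namespace Pool.Agent.V11287.Eul

open Pool.Agent.H708R2.EulerSign Pool.Agent.H708R2.EulerTypeI Pool.Agent.W786.Sv
  Pool.Agent.W786.Dir Pool.Agent.W786.Max

variable {T : ℝ} {u : ℝ → V → V} {p : ℝ → V → ℝ}

/-- The rate at a maximum point. -/
lemma line_pq (h : IsC2Solution T u p) {t : ℝ} (ht : t ∈ Ioo 0 T) {x : V} (hx : IsMaxPt u t x)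
    {G U b q : ℝ} (hG : 0 < G) (hd : LineDirected (u t) x G U) (hb : 0 ≤ b) (hq : 1 ≤ q)
    (hUG : U * G ≤ b * q) (hm : 1 ≤ nrm (vort (u t) x)) :
    Pq u t x ≤ Cl * (1 + b) * ((1 + Real.log (nrm (vort (u t) x))) * q) * Wq u t x := by
  have hC := Cl_pos
  set m := nrm (vort (u t) x) with hmdef
  have hm0 : 0 < m := by linarith
  have hl : 0 ≤ Real.log m := Real.log_nonneg hm
  have h1 := line_stretch (slice_two h ht) (fun x => h.sol.div_free t ⟨ht.1.le, ht.2⟩ x) hG hd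
    (Ω := m) (fun y _ => hx y) (δ := 1 / m) (by positivity)
    (by rw [div_le_one hm0]; exact hm)
  have e1 : Real.log (1 / (1 / m)) = Real.log m := by rw [one_div_one_div]
  have e2 : 1 / m * m = 1 := by field_simp
  rw [e1, e2] at h1
  refine ((le_abs_self _).trans h1).trans ?_
  refine mul_le_mul_of_nonneg_right ?_ (dot_self_nonneg _)
  rw [mul_assoc Cl (1 + b)]
  refine mul_le_mul_of_nonneg_left ?_ hC.le
  have h2 : U * G * (1 + Real.log m) ≤ b * q * (1 + Real.log m) :=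
    mul_le_mul_of_nonneg_right hUG (by linarith)
  have h3 : 1 ≤ (1 + Real.log m) * q := by nlinarith
  calc U * G * (1 + Real.log m) + 1 ≤ b * q * (1 + Real.log m) + (1 + Real.log m) * q := by
        linarith
    _ = (1 + b) * ((1 + Real.log m) * q) := by ring

/-- The criterion. -/
theorem line_main (h : IsC2Solution T u p) {ψ B : ℝ → ℝ} {Λ : ℝ}
    (hψc : ContinuousOn ψ (Ici 0)) (hψ1 : ∀ s, 0 ≤ s → 1 ≤ ψ s) (hΛ : 1 ≤ Λ)
    (hB0 : ∀ t ∈ Ioo 0 T, 0 ≤ B t) (hBi : IntegrableOn B (Ioo 0 T))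
    (hyp : ∀ᵐ t, t ∈ Ioo 0 T → ∃ x, IsMaxPt u t x ∧ (Λ < nrm (vort (u t) x) →
      ∃ G U, 0 < G ∧ U * G ≤ B t * ψ (Real.log (nrm (vort (u t) x))) ∧
        LineDirected (u t) x G U)) :
    (∀ K, Λ ≤ K → (∀ x, nrm (vort (u 0) x) ≤ K) →
      ∀ t ∈ Ioo 0 T, ∀ x, K ≤ nrm (vort (u t) x) →
        ∫ s in (Real.log K)..(Real.log (nrm (vort (u t) x))), 1 / ((1 + s) * ψ s)
          ≤ Cl * ∫ s in Ioo 0 t, (1 + B s)) ∧
    (¬ IntegrableOn (fun s => 1 / ((1 + s) * ψ s)) (Ioi 0) → BKMFinite T u) := by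
  have hC := Cl_pos
  have hφc : ContinuousOn (fun s => (1 + s) * ψ s) (Ici 0) :=
    (continuousOn_const.add continuousOn_id).mul hψc
  have hφ1 : ∀ s : ℝ, 0 ≤ s → 1 ≤ (1 + s) * ψ s := fun s hs => by
    have := hψ1 s hs
    nlinarith
  have hR0 : ∀ t ∈ Ioo 0 T, 0 ≤ Cl * (1 + B t) := fun t ht => by
    have := hB0 t ht
    positivity
  have hi1 : ∀ c, IntegrableOn (fun _ : ℝ => (1 : ℝ)) (Ioo 0 c) := fun c =>
    integrableOn_const (by simp)
  have hRi : IntegrableOn (fun t => Cl * (1 + B t)) (Ioo 0 T) := ((hi1 T).add hBi).const_mul Cl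
  have hyp' : ∀ᵐ t, t ∈ Ioo 0 T → ∃ x, IsMaxPt u t x ∧ (Λ < nrm (vort (u t) x) →
      Pq u t x ≤ Cl * (1 + B t) * ((1 + Real.log (nrm (vort (u t) x)))
        * ψ (Real.log (nrm (vort (u t) x)))) * Wq u t x) := by
    filter_upwards [hyp] with t ht htI
    obtain ⟨x, hx, hx2⟩ := ht htI
    refine ⟨x, hx, fun hlt => ?_⟩
    obtain ⟨G, U, hG, hUG, hd⟩ := hx2 hlt
    have hm : 1 ≤ nrm (vort (u t) x) := hΛ.trans hlt.le
    exact line_pq h htI hx hG hd (hB0 t htI) (hψ1 _ (Real.log_nonneg hm)) hUG hm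
  constructor
  · intro K hK hK0 t ht x hx
    have h1 := osgood h (φ := fun s => (1 + s) * ψ s) (R := fun t => Cl * (1 + B t)) (K := K)
      hφc hφ1 hR0 hRi (by
        filter_upwards [hyp'] with t ht htI
        obtain ⟨x, hx, hx2⟩ := ht htI
        exact ⟨x, hx, fun h1 => hx2 (hK.trans_lt h1)⟩) (hΛ.trans hK) hK0 t ht x hx
    rwa [integral_const_mul] at h1
  · intro hni
    refine osgood_bkm h (φ := fun s => (1 + s) * ψ s) (R := fun t => Cl * (1 + B t)) (Λ := Λ)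
      hφc hφ1 hni hR0 hRi ?_
    filter_upwards [hyp'] with t ht htI
    obtain ⟨x, hx, hx2⟩ := ht htI
    exact ⟨x, hx, fun h1 => hx2 ((le_max_right _ _).trans_lt h1)⟩

end Pool.Agent.V11287.Eul
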