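import Pool.Agent.H708R2.EulerTypeI.Main
import Pool.Agent.H708R2.EulerTypeI.Sharp

/-!
# One-sided criteria of type I with the sharp thresholds
-/

open MeasureTheory Set Filter
open scoped ENNReal NNReal Topology

namespace Pool.Agent.V11287.Eul

open Pool.Agent.H708R2.EulerSign Pool.Agent.H708R2.EulerTypeI

variable {T : ℝ} {u : ℝ → V → V} {p : ℝ → V → ℝ}

/-- The condition of type I implies the bound of the vorticity. -/
theorem one_main (hT : 0 < T) (h : IsC2Solution T u p) {θ κ : ℝ} (hθ : 0 < θ)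
    (hκ : 2 * θ + 1 < κ)
    (hyp : ∀ᶠ t in 𝓝[<] T, ∀ x, vort (u t) x ≠ 0 →
      (T - t) ^ 2 * crit θ (u t) (p t) x ≤ θ + 1 - κ / Real.log (1 / (T - t))) :
    (∃ C : ℝ, ∀ᶠ t in 𝓝[<] T, ∀ x, nrm (vort (u t) x)
      ≤ C / ((T - t) * Real.log (1 / (T - t)) ^ (κ / (2 * θ + 1)))) ∧
    BKMFinite T u := by
  set γ := κ / (2 * θ + 1) with hγ
  have h2θ : 0 < 2 * θ + 1 := by positivity
  have hγ1 : 1 < γ := by rw [hγ, lt_div_iff₀ h2θ, one_mul]; exact hκ
  have hκγ : κ = (2 * θ + 1) * γ := by rw [hγ]; field_simp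
  obtain ⟨t₀, ht₀, hP⟩ := exists_start hT hyp (max 1 γ)
  have hL : ∀ t ∈ Ico t₀ T, 1 ≤ Lf T t ∧ γ ≤ Lf T t := fun t ht =>
    ⟨(le_max_left _ _).trans (hP t ht).2, (le_max_right _ _).trans (hP t ht).2⟩
  have hLpos : ∀ t ∈ Ico t₀ T, 0 < Lf T t := fun t ht => lt_of_lt_of_le one_pos (hL t ht).1
  set β := θ * γ with hβ
  have hβ0 : 0 < β := by positivity
  obtain ⟨C, hC0, hC⟩ := vort_comp_one_sided h ht₀ hθ (R := Rf T θ β)
    (R1 := fun t => Rf T θ β t * ((θ - β / Lf T t) / (T - t)))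
    (R2 := fun t => Rf T θ β t * ((θ * (θ + 1) - (2 * θ + 1) * β / Lf T t
      + β * (β + 1) / (Lf T t) ^ 2) / (T - t) ^ 2))
    (fun t ht => Rf_hasDerivAt ht.2 (hLpos t ht)) (fun t ht => Rf_hasDerivAt2 ht.2 (hLpos t ht))
    (fun t _ => Rf_pos T θ β t) (fun t ht => by
      have h1 := hLpos t ht
      have h2 : 0 < T - t := sub_pos.2 ht.2
      have h3 := Rf_pos T θ β t
      have h4 : β / Lf T t ≤ θ := by
        rw [div_le_iff₀ h1, hβ]
        exact mul_le_mul_of_nonneg_left (hL t ht).2 hθ.le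
      have h5 : 0 ≤ θ - β / Lf T t := by linarith
      positivity)
    (fun t ht x hx => by
      have h1 := hLpos t ht
      have h2 : 0 < T - t := sub_pos.2 ht.2
      have h3 := Rf_pos T θ β t
      have h4 := (hP t ht).1 x hx
      rw [← Lf_eq] at h4
      rw [mul_div_cancel_left₀ _ h3.ne', le_div_iff₀ (by positivity)]
      have h5 : 0 ≤ β * (β + 1) / (Lf T t) ^ 2 := by positivity
      have h6 : (2 * θ + 1) * β / Lf T t = θ * (κ / Lf T t) := by
        rw [hβ, hκγ]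
        ring
      rw [h6]
      calc θ * crit θ (u t) (p t) x * (T - t) ^ 2
          = θ * ((T - t) ^ 2 * crit θ (u t) (p t) x) := by ring
        _ ≤ θ * (θ + 1 - κ / Lf T t) := mul_le_mul_of_nonneg_left h4 hθ.le
        _ ≤ _ := by linarith)
  -- rewriting the bound
  have hfin : ∀ t ∈ Ico t₀ T, ∀ x,
      nrm (vort (u t) x) ≤ C ^ (1 / θ) * (1 / (T - t) * (Lf T t) ^ (-γ)) := by
    intro t ht x
    have h1 := hLpos t ht
    have h4 : 0 < T - t := sub_pos.2 ht.2
    have hform : Rf T θ β t = (1 / (T - t) * (Lf T t) ^ (-γ)) ^ θ := by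
      have e1 : 0 < 1 / (T - t) * (Lf T t) ^ (-γ) :=
        mul_pos (by positivity) (Real.rpow_pos_of_pos h1 _)
      rw [Real.rpow_def_of_pos e1, Real.log_mul (by positivity)
        (Real.rpow_pos_of_pos h1 _).ne', Real.log_rpow h1, one_div, Real.log_inv]
      unfold Rf Lf
      congr 1
      rw [hβ]
      ring
    have h5 := hC t ht x
    rw [hform] at h5
    have h0 := nrm_nonneg (vort (u t) x)
    have h6 := Real.rpow_le_rpow (Real.rpow_nonneg h0 θ) h5 (show 0 ≤ 1 / θ by positivity)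
    rw [← Real.rpow_mul h0, mul_one_div_cancel hθ.ne', Real.rpow_one,
      Real.mul_rpow hC0 (by positivity), ← Real.rpow_mul (by positivity),
      mul_one_div_cancel hθ.ne', Real.rpow_one] at h6
    exact h6
  refine ⟨⟨C ^ (1 / θ), ?_⟩, bkm_of_rate h.sol ht₀ hγ1 hLpos hfin⟩
  have hmem : Ico t₀ T ∈ 𝓝[<] T := Ico_mem_nhdsLT ht₀.2
  filter_upwards [hmem] with t ht x
  refine (hfin t ht x).trans (le_of_eq ?_)
  rw [← Lf_eq, Real.rpow_neg (hLpos t ht).le]
  have h4 : 0 < T - t := sub_pos.2 ht.2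
  have h5 : 0 < (Lf T t) ^ γ := Real.rpow_pos_of_pos (hLpos t ht) _
  field_simp

lemma uf_crit (θ : ℝ) {t : ℝ} (ht : t ∈ Ico 0 T) (x : V) :
    crit θ (uf T t) (pf T t) x
      = (θ + 1 - (2 * θ + 1) / lf T t + (θ + 1) / (lf T t) ^ 2) / (T - t) ^ 2 := by
  have hy := yf_pos ht
  have hl := lf_ge ht
  have hs : 0 < T - t := sub_pos.2 ht.2
  have e1 : dirv (uf T t) x = ![0, 0, 1] := by
    unfold dirv
    rw [uf_vort, nrm_e2, abs_of_pos hy]
    ext i
    fin_cases i
    · simp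
    · simp
    · simp [hy.ne']
  have e2 : (grad (uf T t) x).mulVec (![0, 0, 1] : V) = ![0, 0, af T t] := by
    rw [uf_grad]
    ext i
    fin_cases i <;> simp [Matrix.mulVec, dotProduct, Fin.sum_univ_three, Af]
  have e3 : stretch (uf T t) x = af T t := by
    unfold stretch
    rw [e1, e2]
    simp [dotProduct, Fin.sum_univ_three]
  have e4 : turn (uf T t) x = 0 := by
    unfold turn
    rw [e3, e1, e2]
    ext i
    fin_cases i <;> simp
  have e5 : dirv (uf T t) x ⬝ᵥ (hess (pf T t) x).mulVec (dirv (uf T t) x)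
      = -(bf T t + af T t ^ 2) := by
    rw [e1, pf_hess]
    simp [dotProduct, Fin.sum_univ_three, Matrix.mulVec_diagonal, df]
  unfold crit
  rw [e3, e4, e5]
  simp only [dotProduct_zero]
  unfold bf af
  field_simp
  ring

/-- The linear flow satisfies the hypothesis of the criterion for every `κ < 2 θ + 1`. -/
theorem uf_one (hT : 0 < T) {θ κ : ℝ} (hθ : 0 < θ) (hκ : κ < 2 * θ + 1) :
    ∀ᶠ t in 𝓝[<] T, ∀ x,
      (T - t) ^ 2 * crit θ (uf T t) (pf T t) x ≤ θ + 1 - κ / Real.log (1 / (T - t)) := by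
  have h1 : Tendsto (fun t => Lf T t / lf T t) (𝓝[<] T) (𝓝 1) := by
    have e : Tendsto (fun t => 1 - (1 + Real.log T) / lf T t) (𝓝[<] T) (𝓝 (1 - 0)) :=
      tendsto_const_nhds.sub ((tendsto_lf T).const_div_atTop _)
    rw [sub_zero] at e
    refine e.congr' ?_
    filter_upwards [(tendsto_lf T).eventually (eventually_gt_atTop 0)] with t ht
    have : Lf T t = lf T t - (1 + Real.log T) := by unfold lf; ring
    rw [this, sub_div, div_self ht.ne']
  have h2 : Tendsto (fun t => (2 * θ + 1) * (Lf T t / lf T t)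
      - (θ + 1) * (Lf T t / lf T t) * (1 / lf T t))
      (𝓝[<] T) (𝓝 ((2 * θ + 1) * 1 - (θ + 1) * 1 * 0)) :=
    (h1.const_mul (2 * θ + 1)).sub ((h1.const_mul (θ + 1)).mul
      ((tendsto_lf T).const_div_atTop 1))
  have h3 := h2.eventually (lt_mem_nhds (show κ < (2 * θ + 1) * 1 - (θ + 1) * 1 * 0 by linarith))
  filter_upwards [h3, (tendsto_Lf T).eventually (eventually_gt_atTop 0), Ico_mem_nhdsLT hT]
    with t ht hL htI x
  have hl := lf_ge htI
  have hs : 0 < T - t := sub_pos.2 htI.2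
  rw [uf_crit θ htI, ← Lf_eq, mul_div_cancel₀ _ (by positivity)]
  have : κ / Lf T t ≤ (2 * θ + 1) / lf T t - (θ + 1) / lf T t ^ 2 := by
    rw [div_le_iff₀ hL]
    refine ht.le.trans (le_of_eq ?_)
    field_simp
  linarith

end Pool.Agent.V11287.Eul
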